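import Pool.Agent.Lib.MP_b2ebfc_lc.H35.Tools

/-!
# Module APP1P: correctness of `app1P`
-/

set_option autoImplicit false

namespace Pool.Agent.Lib.MP_b2ebfc_lc.H35

open Finset Pool.Agent.Lib.MP_b2ebfc_lc

theorem digE_eval {n a b : ℕ} {M : Fin a → Fin b → ℤ} {s : St} (h : Ctx n a b M s) (Z c : ℕ)
    (h20 : s.r 20 = Z) (h21 : s.r 21 = c) (i : Fin a) (h30 : s.r 30 = (i : ℕ)) :
    digE.eval s = (((c / 3 ^ ((maskSet a Z).filter (fun h => h < i)).card) % 3 : ℕ) : ℤ) := by
  have hP2 : ∀ h : Fin a, s.m 4 ((h : ℕ) : ℤ) = 2 ^ (h : ℕ) := fun k =>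
    h.hP2 k (by have := k.2; have := h.hab; omega)
  have hc : ((maskSet a Z).filter (fun h => h < i)).card ≤ n := by
    refine (Finset.card_le_univ _).trans ?_
    have := h.hab
    simp only [Fintype.card_fin]; omega
  simp only [digE, Expr.eval, bitE, St.setR_r, St.setR_m]
  norm_num only [if_true, if_false, h.ha, h20, h21, h30]
  simp only [Int.toNat_natCast, Finset.sum_range, hP2]
  rw [cnt_lt, h.hP3 _ hc]
  push_cast
  rfl

theorem raE_eval {n a b : ℕ} {M : Fin a → Fin b → ℤ} {s : St} (h : Ctx n a b M s) (Z c : ℕ)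
    (h20 : s.r 20 = Z) (h21 : s.r 21 = c) (i : Fin a) (h30 : s.r 30 = (i : ℕ)) :
    raE.eval s = if i ∈ ternFst a Z c then 1 else 0 := by
  have h1 : raE.eval s = (bitE (.reg 20) (.reg 30)).eval s *
      (eqE digE (.const 1) (.const 0) (.const 1)).eval s := rfl
  rw [h1, eval_eqE, digE_eval h Z c h20 h21 i h30]
  have h2 : (bitE (.reg 20) (.reg 30)).eval s = if i ∈ maskSet a Z then 1 else 0 := by
    rw [← bit_eq Z i]
    simp only [bitE, Expr.eval, h20, h30]
    rw [h.hP2 i (by have := i.2; have := h.hab; omega)]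
  rw [h2]
  simp only [Expr.eval, ternFst, Finset.mem_filter]
  have h3 : ((((c / 3 ^ ((maskSet a Z).filter (fun h => h < i)).card) % 3 : ℕ) : ℤ) = 1) ↔
      (c / 3 ^ ((maskSet a Z).filter (fun h => h < i)).card) % 3 = 1 := by
    norm_cast
  simp only [h3]
  by_cases h4 : i ∈ maskSet a Z
  · by_cases h5 : (c / 3 ^ ((maskSet a Z).filter (fun h => h < i)).card) % 3 = 1
    · simp [h4, h5]
    · simp [h4, h5]
  · simp [h4]

theorem rbE_eval {n a b : ℕ} {M : Fin a → Fin b → ℤ} {s : St} (h : Ctx n a b M s) (Z c : ℕ)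
    (h20 : s.r 20 = Z) (h21 : s.r 21 = c) (i : Fin a) (h30 : s.r 30 = (i : ℕ)) :
    rbE.eval s = if i ∈ ternSnd a Z c then 1 else 0 := by
  have h1 : rbE.eval s = (bitE (.reg 20) (.reg 30)).eval s *
      (eqE digE (.const 0) (.const 0) (.const 1)).eval s := rfl
  rw [h1, eval_eqE, digE_eval h Z c h20 h21 i h30]
  have h2 : (bitE (.reg 20) (.reg 30)).eval s = if i ∈ maskSet a Z then 1 else 0 := by
    rw [← bit_eq Z i]
    simp only [bitE, Expr.eval, h20, h30]
    rw [h.hP2 i (by have := i.2; have := h.hab; omega)]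
  rw [h2]
  simp only [Expr.eval, ternSnd, Finset.mem_filter]
  have h3 : ((((c / 3 ^ ((maskSet a Z).filter (fun h => h < i)).card) % 3 : ℕ) : ℤ) = 0) ↔
      (c / 3 ^ ((maskSet a Z).filter (fun h => h < i)).card) % 3 = 0 := by
    norm_cast
  simp only [h3]
  by_cases h4 : i ∈ maskSet a Z
  · by_cases h5 : (c / 3 ^ ((maskSet a Z).filter (fun h => h < i)).card) % 3 = 0
    · simp [h4, h5]
    · simp [h4, h5]
  · simp [h4]

theorem sum_ind {a : ℕ} (P : Finset (Fin a)) (f : Fin a → ℤ) :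
    ∑ i : Fin a, (if i ∈ P then (1 : ℤ) else 0) * f i = ∑ i ∈ P, f i := by
  simp only [ite_mul, one_mul, zero_mul]
  rw [Finset.sum_ite_mem, Finset.univ_inter]

theorem cnb_bd {a b : ℕ} (M : Fin a → Fin b → ℤ) (h : ∀ i l, M i l = 0 ∨ M i l = 1)
    (P : Finset (Fin a)) (x : Fin b) : 0 ≤ cnb M P x ∧ cnb M P x ≤ a := by
  unfold cnb
  refine ⟨Finset.sum_nonneg fun i _ => by rcases h i x with h | h <;> rw [h] <;> norm_num, ?_⟩
  calc ∑ i ∈ P, M i x ≤ ∑ _i ∈ P, (1 : ℤ) := Finset.sum_le_sum fun i _ => by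
        rcases h i x with h | h <;> rw [h] <;> norm_num
    _ = P.card := by simp
    _ ≤ a := by exact_mod_cast (Finset.card_le_univ P).trans (by simp)

theorem body1_val (hDP : DetPStatement) {w n a b : ℕ} {M : Fin a → Fin b → ℤ} {s : St}
    (hw : w = wordLen n) (h : Ctx n a b M s) (Z c : ℕ) (hZ : Z < 2 ^ a)
    (h20 : s.r 20 = Z) (h21 : s.r 21 = c) (h22 : s.r 22 = (maskSet a Z).card) :
    ∃ D : ℤ, ((D : ℤ) : ZMod (2 ^ w)) =
        ((detI M (zval n) (ternFst a Z c) (ternSnd a Z c) : ℤ) : ZMod (2 ^ w)) ∧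
      (body1.run w s).m 14 = (if Even ((ternFst a Z c).card + (ternSnd a Z c).card) then
        Function.update (s.m 14) (maskSet a Z).card ((s.m 14 (maskSet a Z).card + D) % 2 ^ w)
        else s.m 14) ∧
      (body1.run w s).m 15 = (if Even ((ternFst a Z c).card + (ternSnd a Z c).card) then s.m 15
        else Function.update (s.m 15) (maskSet a Z).card
          ((s.m 15 (maskSet a Z).card + D) % 2 ^ w)) := by
  obtain ⟨P, hP⟩ : ∃ P, P = ternFst a Z c := ⟨_, rfl⟩
  obtain ⟨P', hP'⟩ : ∃ P', P' = ternSnd a Z c := ⟨_, rfl⟩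
  rw [← hP, ← hP']
  have hn : 0 < n := by have := h.hab; have := h.hb1; omega
  have h01 : ∀ (Q : Finset (Fin a)) (i : Fin a),
      (if i ∈ Q then (1 : ℤ) else 0) % 2 ^ w = if i ∈ Q then 1 else 0 := by
    intro Q i
    rw [hw]
    refine word_mod (n := n) _ (by split_ifs <;> norm_num) ?_
    have : (1 : ℤ) ≤ n * n := by nlinarith [(by exact_mod_cast hn : (1 : ℤ) ≤ n)]
    split_ifs <;> linarith
  obtain ⟨s1, hs1⟩ : ∃ t, t = (tab 30 3 8 raE).run w s := ⟨_, rfl⟩
  obtain ⟨s2, hs2⟩ : ∃ t, t = (tab 30 3 9 rbE).run w s1 := ⟨_, rfl⟩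
  obtain ⟨s3, hs3⟩ : ∃ t, t = (tab 30 4 10 wtE).run w s2 := ⟨_, rfl⟩
  obtain ⟨s4, hs4⟩ : ∃ t, t = (tab 30 4 19 (.const 1)).run w s3 := ⟨_, rfl⟩
  obtain ⟨s5, hs5⟩ : ∃ t, t = detP.run w s4 := ⟨_, rfl⟩
  have hrun : body1.run w s = (Prog.ite parE (.const 1)
      (.put 14 (.reg 22) (.add (.arr 14 (.reg 22)) (.reg 24)))
      (.put 15 (.reg 22) (.add (.arr 15 (.reg 22)) (.reg 24)))).run w s5 := by
    subst hs5 hs4 hs3 hs2 hs1; rfl
  -- frames
  have r1 : ∀ j, s1.r j = s.r j := fun j => by rw [hs1]; exact tab_r w 30 3 8 raE s j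
  have m1 : ∀ j, j ≠ 8 → s1.m j = s.m j := fun j hj => by
    rw [hs1]; exact tab_m w 30 3 8 raE s j hj
  have r2 : ∀ j, s2.r j = s.r j := fun j => by rw [hs2, tab_r w 30 3 9 rbE s1 j, r1]
  have m2 : ∀ j, j ≠ 8 → j ≠ 9 → s2.m j = s.m j := fun j hj hj' => by
    rw [hs2, tab_m w 30 3 9 rbE s1 j hj', m1 j hj]
  have r3 : ∀ j, s3.r j = s.r j := fun j => by rw [hs3, tab_r w 30 4 10 wtE s2 j, r2]
  have m3 : ∀ j, j ≠ 8 → j ≠ 9 → j ≠ 10 → s3.m j = s.m j := fun j hj hj' h'' => by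
    rw [hs3, tab_m w 30 4 10 wtE s2 j h'', m2 j hj hj']
  have r4 : ∀ j, s4.r j = s.r j := fun j => by rw [hs4, tab_r w 30 4 19 (.const 1) s3 j, r3]
  have m4 : ∀ j, j ≠ 8 → j ≠ 9 → j ≠ 10 → j ≠ 19 → s4.m j = s.m j := fun j hj hj' h'' h3 => by
    rw [hs4, tab_m w 30 4 19 (.const 1) s3 j h3, m3 j hj hj' h'']
  have c1 : Ctx n a b M s1 := ctx_run h (fun j _ => r1 j) (fun j hj => m1 j (by
    rintro rfl; revert hj; decide))
  have c2 : Ctx n a b M s2 := ctx_run h (fun j _ => r2 j) (fun j hj => m2 j (by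
    rintro rfl; revert hj; decide) (by rintro rfl; revert hj; decide))
  have c4 : Ctx n a b M s4 := ctx_run h (fun j _ => r4 j) (fun j hj => m4 j (by
    rintro rfl; revert hj; decide) (by rintro rfl; revert hj; decide)
    (by rintro rfl; revert hj; decide) (by rintro rfl; revert hj; decide))
  -- values
  have hctx30 : ∀ (t : St) (k : ℤ), Ctx n a b M t → Ctx n a b M (t.setR 30 k) := fun t k ht =>
    ctx_run ht (fun j hj => by
      rw [St.setR_r, if_neg]; rintro rfl; revert hj; decide) (fun j _ => rfl)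
  have e8 : ∀ i : Fin a, s1.m 8 ((i : ℕ) : ℤ) = if i ∈ P then 1 else 0 := by
    intro i
    rw [hs1, tab_val w 30 3 8 raE s rfl _ (by positivity)
      (by rw [h.ha]; exact_mod_cast i.2), raE_eval (hctx30 s _ h) Z c (by simpa using h20)
      (by simpa using h21) i (by simp), hP]
    exact h01 _ i
  have e9 : ∀ i : Fin a, s2.m 9 ((i : ℕ) : ℤ) = if i ∈ P' then 1 else 0 := by
    intro i
    rw [hs2, tab_val w 30 3 9 rbE s1 rfl _ (by positivity)
      (by rw [c1.ha]; exact_mod_cast i.2), rbE_eval (hctx30 s1 _ c1) Z c (by simpa [r1] using h20)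
      (by simpa [r1] using h21) i (by simp), hP']
    exact h01 _ i
  have e8' : ∀ i : Fin a, s2.m 8 ((i : ℕ) : ℤ) = if i ∈ P then 1 else 0 := by
    intro i
    rw [hs2, tab_m w 30 3 9 rbE s1 8 (by norm_num)]
    exact e8 i
  have e10 : ∀ x : Fin b, s3.m 10 ((x : ℕ) : ℤ) = cnb M P x * cnb M P' x := by
    intro x
    have hev : wtE.eval (s2.setR 30 ((x : ℕ) : ℤ)) = cnb M P x * cnb M P' x := by
      simp only [wtE, Expr.eval, St.setR_r, St.setR_m]
      norm_num only [if_true, if_false, c2.ha, c2.hb]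
      simp only [Int.toNat_natCast, Finset.sum_range, c2.hM, e8', e9, sum_ind]
      rfl
    rw [hs3, tab_val w 30 4 10 wtE s2 rfl _ (by positivity)
      (by rw [c2.hb]; exact_mod_cast x.2), hev, hw]
    have b1 := cnb_bd M h.hM01 P x
    have b2 := cnb_bd M h.hM01 P' x
    refine word_mod (n := n) _ (mul_nonneg b1.1 b2.1) ?_
    have han : (a : ℤ) ≤ n := by have := h.hab; exact_mod_cast (by omega : a ≤ n)
    calc cnb M P x * cnb M P' x ≤ a * a := mul_le_mul b1.2 b2.2 b2.1 (by positivity)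
      _ ≤ n * n := mul_le_mul han han (by positivity) (by positivity)
  have e10' : ∀ x : Fin b, s4.m 10 ((x : ℕ) : ℤ) = cnb M P x * cnb M P' x := by
    intro x
    rw [hs4, tab_m w 30 4 19 (.const 1) s3 10 (by norm_num)]
    exact e10 x
  have e19 : ∀ x : Fin b, s4.m 19 ((x : ℕ) : ℤ) = 1 := by
    intro x
    have h1n : (1 : ℤ) ≤ n := by exact_mod_cast hn
    have h3 : s3.r 4 = b := by rw [r3]; exact h.hb
    rw [hs4, tab_val w 30 4 19 (.const 1) s3 rfl _ (by positivity)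
      (by rw [h3]; exact_mod_cast x.2), hw]
    exact word_mod (n := n) 1 (by norm_num) (by nlinarith)
  have hU : maskSet a Z = P ∪ P' := by rw [hP, hP', tern_union]
  -- the determinant
  have hdet := hDP w n a b M s4 Z c4 hZ (by rw [r4]; exact h20)
  rw [← hs5] at hdet
  refine ⟨s5.r 24, ?_, ?_⟩
  · rw [hdet]
    unfold detI
    rw [← hU]
    have hf1 : (fun x : Fin b => s4.m 10 ((x : ℕ) : ℤ)) = fun x => cnb M P x * cnb M P' x :=
      funext e10'
    have hf2 : (fun x : Fin b => s4.m 19 ((x : ℕ) : ℤ)) = fun _ => 1 := funext e19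
    rw [hf1, hf2]
  -- the parity
  have r5 : ∀ j, j ≠ 24 → s5.r j = s4.r j := fun j hj => by
    rw [hs5]; exact Prog.run_r w detP j (by simp [detP, seqs, birdP, Prog.wrR, hj]) s4
  have m5 : ∀ j, j ≠ 11 → j ≠ 12 → j ≠ 13 → s5.m j = s4.m j := fun j h1 h2 h3 => by
    rw [hs5]; exact Prog.run_m w detP j (by simp [detP, seqs, birdP, Prog.wrA, h1, h2, h3]) s4
  have e8'' : ∀ i : Fin a, s5.m 8 ((i : ℕ) : ℤ) = if i ∈ P then 1 else 0 := by
    intro i
    rw [m5 8 (by norm_num) (by norm_num) (by norm_num), hs4,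
      tab_m w 30 4 19 (.const 1) s3 8 (by norm_num), hs3, tab_m w 30 4 10 wtE s2 8 (by norm_num)]
    exact e8' i
  have e9'' : ∀ i : Fin a, s5.m 9 ((i : ℕ) : ℤ) = if i ∈ P' then 1 else 0 := by
    intro i
    rw [m5 9 (by norm_num) (by norm_num) (by norm_num), hs4,
      tab_m w 30 4 19 (.const 1) s3 9 (by norm_num), hs3, tab_m w 30 4 10 wtE s2 9 (by norm_num)]
    exact e9 i
  have h3 : s5.r 3 = a := by rw [r5 3 (by norm_num), r4]; exact h.ha
  have hpar : parE.eval s5 = (((P.card + P'.card) % 2 : ℕ) : ℤ) := by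
    simp only [parE, Expr.eval, St.setR_r, St.setR_m]
    norm_num only [if_true, if_false, h3]
    simp only [Int.toNat_natCast, Finset.sum_range, e8'', e9'']
    rw [Finset.sum_add_distrib]
    have := sum_ind P (fun _ => 1)
    have h' := sum_ind P' (fun _ => 1)
    simp only [mul_one, Finset.sum_const, nsmul_eq_mul] at this h'
    rw [this, h']
    push_cast
    rfl
  have hm14 : s5.m 14 = s.m 14 := by
    rw [m5 14 (by norm_num) (by norm_num) (by norm_num), m4 14 (by norm_num) (by norm_num)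
      (by norm_num) (by norm_num)]
  have hm15 : s5.m 15 = s.m 15 := by
    rw [m5 15 (by norm_num) (by norm_num) (by norm_num), m4 15 (by norm_num) (by norm_num)
      (by norm_num) (by norm_num)]
  have h22' : s5.r 22 = (maskSet a Z).card := by rw [r5 22 (by norm_num), r4]; exact h22
  rw [hrun]
  by_cases hev : Even (P.card + P'.card)
  · have hlt : parE.eval s5 < (Expr.const 1).eval s5 := by
      rw [hpar, Nat.even_iff.mp hev]; norm_num [Expr.eval]
    have : (Prog.ite parE (.const 1)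
      (.put 14 (.reg 22) (.add (.arr 14 (.reg 22)) (.reg 24)))
      (.put 15 (.reg 22) (.add (.arr 15 (.reg 22)) (.reg 24)))).run w s5 =
      (Prog.put 14 (.reg 22) (.add (.arr 14 (.reg 22)) (.reg 24))).run w s5 := by
      simp only [Prog.run]
      rw [if_pos hlt]
    rw [this, if_pos hev, if_pos hev]
    simp only [Prog.run, Expr.eval, St.setM_m, if_true, h22', hm14, hm15]
    norm_num
  · have hlt : ¬ parE.eval s5 < (Expr.const 1).eval s5 := by
      rw [hpar, Nat.not_even_iff.mp hev]; norm_num [Expr.eval]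
    have : (Prog.ite parE (.const 1)
      (.put 14 (.reg 22) (.add (.arr 14 (.reg 22)) (.reg 24)))
      (.put 15 (.reg 22) (.add (.arr 15 (.reg 22)) (.reg 24)))).run w s5 =
      (Prog.put 15 (.reg 22) (.add (.arr 15 (.reg 22)) (.reg 24))).run w s5 := by
      simp only [Prog.run]
      rw [if_neg hlt]
    rw [this, if_neg hev, if_neg hev]
    simp only [Prog.run, Expr.eval, St.setM_m, if_true, h22', hm14, hm15]
    norm_num

/-- What one pair contributes. -/
noncomputable def ctb {n a b : ℕ} (M : Fin a → Fin b → ℤ) (e : Prop) [Decidable e]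
    (r : ℤ) (P P' : Finset (Fin a)) : ℤ :=
  if r = (((P ∪ P').card : ℕ) : ℤ) ∧ (e ↔ Even (P.card + P'.card)) then detI M (zval n) P P' else 0

/-- The invariant of the inner loop. -/
structure Inv1 (w n a b : ℕ) (M : Fin a → Fin b → ℤ) (s : St) (Z : ℕ) (k : ℕ) (t : St) :
    Prop where
  ctx : Ctx n a b M t
  h20 : t.r 20 = Z
  h22 : t.r 22 = (maskSet a Z).card
  h6 : t.r 6 = s.r 6
  v14 : ∀ r : ℕ, ((t.m 14 r : ℤ) : ZMod (2 ^ w)) = ((s.m 14 r + ∑ c ∈ range k,
    ctb (n := n) M True r (ternFst a Z c) (ternSnd a Z c) : ℤ) : ZMod (2 ^ w))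
  v15 : ∀ r : ℕ, ((t.m 15 r : ℤ) : ZMod (2 ^ w)) = ((s.m 15 r + ∑ c ∈ range k,
    ctb (n := n) M False r (ternFst a Z c) (ternSnd a Z c) : ℤ) : ZMod (2 ^ w))
  b14 : ∀ r : ℕ, 0 ≤ t.m 14 r ∧ t.m 14 r < 2 ^ w
  b15 : ∀ r : ℕ, 0 ≤ t.m 15 r ∧ t.m 15 r < 2 ^ w

theorem body1_wrR (j : ℕ) (hj : j ≠ 24) : body1.wrR j = false := by
  simp [body1, detP, seqs, birdP, Prog.wrR, hj]

theorem body1_wrA (j : ℕ) (h8 : j ≠ 8) (h9 : j ≠ 9) (h10 : j ≠ 10) (h19 : j ≠ 19) (h11 : j ≠ 11)
    (h12 : j ≠ 12) (h13 : j ≠ 13) (h14 : j ≠ 14) (h15 : j ≠ 15) : body1.wrA j = false := by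
  simp [body1, detP, seqs, birdP, Prog.wrA, h8, h9, h10, h19, h11, h12, h13, h14, h15]

theorem upd_val {w : ℕ} (f : ℤ → ℤ) (r0 r D X : ℤ) (h : ((f r : ℤ) : ZMod (2 ^ w)) = (X : ℤ)) :
    ((Function.update f r0 ((f r0 + D) % 2 ^ w) r : ℤ) : ZMod (2 ^ w)) =
      ((X + if r = r0 then D else 0 : ℤ) : ZMod (2 ^ w)) := by
  by_cases hr : r = r0
  · subst hr
    rw [Function.update_self, cast_emod, if_pos rfl]
    push_cast
    rw [h]
  · rw [Function.update_of_ne hr, if_neg hr, add_zero, h]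

theorem upd_bd {w : ℕ} (f : ℤ → ℤ) (r0 D r : ℤ) (h : 0 ≤ f r ∧ f r < 2 ^ w) :
    0 ≤ Function.update f r0 ((f r0 + D) % 2 ^ w) r ∧
      Function.update f r0 ((f r0 + D) % 2 ^ w) r < 2 ^ w := by
  by_cases hr : r = r0
  · subst hr
    rw [Function.update_self]
    exact ⟨Int.emod_nonneg _ (by positivity), Int.emod_lt_of_pos _ (by positivity)⟩
  · rw [Function.update_of_ne hr]
    exact h

theorem inv1_step (hDP : DetPStatement) {w n a b : ℕ} {M : Fin a → Fin b → ℤ} {s : St}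
    (hw : w = wordLen n) (Z k : ℕ) (hZ : Z < 2 ^ a) (t : St) (h : Inv1 w n a b M s Z k t) :
    Inv1 w n a b M s Z (k + 1) (body1.run w (t.setR 21 k)) := by
  have hctx : Ctx n a b M (t.setR 21 k) := ctx_run h.ctx (fun j hj => by
      rw [St.setR_r, if_neg]; rintro rfl; revert hj; decide) (fun j _ => rfl)
  obtain ⟨D, hD, h14, h15⟩ := body1_val hDP hw hctx Z k hZ (by simpa using h.h20) (by simp)
    (by simpa using h.h22)
  have hU : ternFst a Z k ∪ ternSnd a Z k = maskSet a Z := tern_union a Z k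
  refine ⟨?_, ?_, ?_, ?_, ?_, ?_, ?_, ?_⟩
  · refine ctx_run hctx (fun j hj => Prog.run_r w _ j (body1_wrR j ?_) _)
      (fun j hj => Prog.run_m w _ j (body1_wrA j ?_ ?_ ?_ ?_ ?_ ?_ ?_ ?_ ?_) _)
    all_goals (rintro rfl; revert hj; decide)
  · rw [Prog.run_r w _ 20 (body1_wrR 20 (by norm_num))]; simpa using h.h20
  · rw [Prog.run_r w _ 22 (body1_wrR 22 (by norm_num))]; simpa using h.h22
  · rw [Prog.run_r w _ 6 (body1_wrR 6 (by norm_num))]; simpa using h.h6
  · intro r
    rw [h14, Finset.sum_range_succ, ← add_assoc]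
    have hc : ((ctb (n := n) M True r (ternFst a Z k) (ternSnd a Z k) : ℤ) : ZMod (2 ^ w)) =
        ((if Even ((ternFst a Z k).card + (ternSnd a Z k).card) then
          (if (r : ℤ) = ((maskSet a Z).card : ℤ) then D else 0) else 0 : ℤ) : ZMod (2 ^ w)) := by
      unfold ctb
      rw [hU]
      by_cases h1 : Even ((ternFst a Z k).card + (ternSnd a Z k).card)
      · by_cases h2 : (r : ℤ) = ((maskSet a Z).card : ℤ)
        · rw [if_pos ⟨h2, by simpa using h1⟩, if_pos h1, if_pos h2, hD]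
        · rw [if_neg (fun h3 => h2 h3.1), if_pos h1, if_neg h2]
      · rw [if_neg (fun h3 => h1 (h3.2.mp trivial)), if_neg h1]
    rw [Int.cast_add, hc, ← Int.cast_add]
    split_ifs with h1 h2
    · have := upd_val (t.m 14) ((maskSet a Z).card : ℤ) r D _ (h.v14 r)
      rw [if_pos h2] at this
      simpa using this
    · have := upd_val (t.m 14) ((maskSet a Z).card : ℤ) r D _ (h.v14 r)
      rw [if_neg h2] at this
      simpa using this
    · simpa using h.v14 r
  · intro r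
    rw [h15, Finset.sum_range_succ, ← add_assoc]
    have hc : ((ctb (n := n) M False r (ternFst a Z k) (ternSnd a Z k) : ℤ) : ZMod (2 ^ w)) =
        ((if Even ((ternFst a Z k).card + (ternSnd a Z k).card) then 0 else
          (if (r : ℤ) = ((maskSet a Z).card : ℤ) then D else 0) : ℤ) : ZMod (2 ^ w)) := by
      unfold ctb
      rw [hU]
      by_cases h1 : Even ((ternFst a Z k).card + (ternSnd a Z k).card)
      · rw [if_neg (fun h3 => (h3.2.mpr h1)), if_pos h1]
      · by_cases h2 : (r : ℤ) = ((maskSet a Z).card : ℤ)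
        · rw [if_pos ⟨h2, by simpa using h1⟩, if_neg h1, if_pos h2, hD]
        · rw [if_neg (fun h3 => h2 h3.1), if_neg h1, if_neg h2]
    rw [Int.cast_add, hc, ← Int.cast_add]
    split_ifs with h1 h2
    · simpa using h.v15 r
    · have := upd_val (t.m 15) ((maskSet a Z).card : ℤ) r D _ (h.v15 r)
      rw [if_pos h2] at this
      simpa using this
    · have := upd_val (t.m 15) ((maskSet a Z).card : ℤ) r D _ (h.v15 r)
      rw [if_neg h2] at this
      simpa using this
  · intro r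
    rw [h14]
    split_ifs
    · exact upd_bd _ _ _ _ (h.b14 r)
    · exact h.b14 r
  · intro r
    rw [h15]
    split_ifs
    · exact h.b15 r
    · exact upd_bd _ _ _ _ (h.b15 r)

/-- The body of the outer loop. -/
def outer1 : Prog := seqs [.set 22 popE,
    .ite (.reg 22) (.add (.reg 6) (.const 1))
      (seqs [.set 19 (.arr 5 (.reg 22)), .loop 21 (.reg 19) body1]) .skip]

/-- The invariant of the outer loop. -/
structure Inv2 (w n a b u₀ : ℕ) (M : Fin a → Fin b → ℤ) (k : ℕ) (t : St) : Prop where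
  ctx : Ctx n a b M t
  h6 : t.r 6 = u₀
  v14 : ∀ r : ℕ, ((t.m 14 r : ℤ) : ZMod (2 ^ w)) = ((∑ Z ∈ range k,
    if (maskSet a Z).card ≤ u₀ then ∑ c ∈ range (3 ^ (maskSet a Z).card),
    ctb (n := n) M True r (ternFst a Z c) (ternSnd a Z c) else 0 : ℤ) : ZMod (2 ^ w))
  v15 : ∀ r : ℕ, ((t.m 15 r : ℤ) : ZMod (2 ^ w)) = ((∑ Z ∈ range k,
    if (maskSet a Z).card ≤ u₀ then ∑ c ∈ range (3 ^ (maskSet a Z).card),
    ctb (n := n) M False r (ternFst a Z c) (ternSnd a Z c) else 0 : ℤ) : ZMod (2 ^ w))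
  b14 : ∀ r : ℕ, 0 ≤ t.m 14 r ∧ t.m 14 r < 2 ^ w
  b15 : ∀ r : ℕ, 0 ≤ t.m 15 r ∧ t.m 15 r < 2 ^ w

theorem popE_eval {n a b : ℕ} {M : Fin a → Fin b → ℤ} {s : St} (h : Ctx n a b M s) (Z : ℕ)
    (h20 : s.r 20 = Z) : popE.eval s = (maskSet a Z).card := by
  have hP2 : ∀ h : Fin a, s.m 4 ((h : ℕ) : ℤ) = 2 ^ (h : ℕ) := fun k =>
    h.hP2 k (by have := k.2; have := h.hab; omega)
  simp only [popE, Expr.eval, bitE, St.setR_r, St.setR_m]
  norm_num only [if_true, if_false, h.ha, h20]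
  simp only [Int.toNat_natCast, Finset.sum_range, hP2]
  exact card_maskSet Z

theorem inv2_step (hDP : DetPStatement) {w n a b u₀ : ℕ} {M : Fin a → Fin b → ℤ}
    (hw : w = wordLen n) (Z : ℕ) (hZ : Z < 2 ^ a) (t : St)
    (h : Inv2 w n a b u₀ M Z t) : Inv2 w n a b u₀ M (Z + 1) (outer1.run w (t.setR 20 Z)) := by
  obtain ⟨t0, ht0⟩ : ∃ x, x = t.setR 20 Z := ⟨_, rfl⟩
  have c0 : Ctx n a b M t0 := ctx_run h.ctx (fun j hj => by
      rw [ht0, St.setR_r, if_neg]; rintro rfl; revert hj; decide) (fun j _ => by rw [ht0]; rfl)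
  obtain ⟨t1, ht1⟩ : ∃ x, x = (Prog.set 22 popE).run w t0 := ⟨_, rfl⟩
  have hcard : (maskSet a Z).card ≤ n := by
    refine (Finset.card_le_univ _).trans ?_
    have := h.ctx.hab
    simp only [Fintype.card_fin]; omega
  have hn : 0 < n := by have := h.ctx.hab; have := h.ctx.hb1; omega
  have hcardw : (((maskSet a Z).card : ℕ) : ℤ) % 2 ^ w = (maskSet a Z).card := by
    rw [hw]
    refine word_mod (n := n) _ (by positivity) ?_
    have h1 : (((maskSet a Z).card : ℕ) : ℤ) ≤ n := by exact_mod_cast hcard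
    have h2 : (1 : ℤ) ≤ n := by exact_mod_cast hn
    nlinarith
  have r1 : ∀ j, j ≠ 22 → t1.r j = t0.r j := fun j hj => by
    rw [ht1]; exact Prog.run_r w _ j (by simpa [Prog.wrR] using hj) t0
  have m1 : t1.m = t0.m := by rw [ht1]; rfl
  have c1 : Ctx n a b M t1 := ctx_run c0 (fun j hj => r1 j (by rintro rfl; revert hj; decide))
    (fun j _ => by rw [m1])
  have h20 : t1.r 20 = Z := by rw [r1 20 (by norm_num), ht0]; simp
  have h22 : t1.r 22 = (maskSet a Z).card := by
    rw [ht1]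
    simp only [Prog.run, St.setR_r, if_true]
    rw [popE_eval c0 Z (by rw [ht0]; simp), hcardw]
  have h6 : t1.r 6 = u₀ := by
    rw [r1 6 (by norm_num), ht0]; simpa using h.h6
  have m1' : t1.m = t.m := by rw [m1, ht0]; rfl
  have hrun : outer1.run w (t.setR 20 Z) = (Prog.ite (.reg 22) (.add (.reg 6) (.const 1))
      (seqs [.set 19 (.arr 5 (.reg 22)), .loop 21 (.reg 19) body1]) .skip).run w t1 := by
    subst ht1 ht0; rfl
  rw [hrun]
  have hcond : (Expr.reg 22).eval t1 < (Expr.add (.reg 6) (.const 1)).eval t1 ↔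
      (maskSet a Z).card ≤ u₀ := by
    simp only [Expr.eval, h22, h6]
    omega
  by_cases hc : (maskSet a Z).card ≤ u₀
  · obtain ⟨t2, ht2⟩ : ∃ x, x = (Prog.set 19 (.arr 5 (.reg 22))).run w t1 := ⟨_, rfl⟩
    have r2 : ∀ j, j ≠ 19 → t2.r j = t1.r j := fun j hj => by
      rw [ht2]; exact Prog.run_r w _ j (by simpa [Prog.wrR] using hj) t1
    have m2 : t2.m = t1.m := by rw [ht2]; rfl
    have c2 : Ctx n a b M t2 := ctx_run c1 (fun j hj => r2 j (by rintro rfl; revert hj; decide))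
      (fun j _ => by rw [m2])
    have h19 : t2.r 19 = 3 ^ (maskSet a Z).card := by
      rw [ht2]
      simp only [Prog.run, St.setR_r, if_true, Expr.eval, h22]
      rw [c1.hP3 _ hcard, hw]
      exact pow3_mod _ hcard
    have hrun2 : (Prog.ite (.reg 22) (.add (.reg 6) (.const 1))
      (seqs [.set 19 (.arr 5 (.reg 22)), .loop 21 (.reg 19) body1]) .skip).run w t1 =
      (iter (body1.run w) 21 t2 (3 ^ (maskSet a Z).card)).setR 21 (t2.r 21) := by
      have h1 : (Prog.ite (.reg 22) (.add (.reg 6) (.const 1))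
        (seqs [.set 19 (.arr 5 (.reg 22)), .loop 21 (.reg 19) body1]) .skip).run w t1 =
        (seqs [.set 19 (.arr 5 (.reg 22)), .loop 21 (.reg 19) body1]).run w t1 := by
        simp only [Prog.run]
        rw [if_pos (hcond.mpr hc)]
      rw [h1]
      have h2 : (seqs [.set 19 (.arr 5 (.reg 22)), .loop 21 (.reg 19) body1]).run w t1 =
        (iter (body1.run w) 21 t2 (t2.r 19).toNat).setR 21 (t2.r 21) := by
        subst ht2; rfl
      rw [h2, h19]
      congr 2
    have hinv : Inv1 w n a b M t2 Z (3 ^ (maskSet a Z).card)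
        (iter (body1.run w) 21 t2 (3 ^ (maskSet a Z).card)) := by
      refine iter_inv (body1.run w) 21 (Inv1 w n a b M t2 Z) t2 _ ?_
        (fun k _ t ht => inv1_step hDP hw Z k hZ t ht)
      refine ⟨c2, ?_, ?_, rfl, fun r => by simp, fun r => by simp, ?_, ?_⟩
      · rw [r2 20 (by norm_num), h20]
      · rw [r2 22 (by norm_num), h22]
      · intro r; rw [m2, m1']; exact h.b14 r
      · intro r; rw [m2, m1']; exact h.b15 r
    rw [hrun2]
    refine ⟨?_, ?_, ?_, ?_, ?_, ?_⟩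
    · exact ctx_run hinv.ctx (fun j hj => by
        rw [St.setR_r, if_neg]; rintro rfl; revert hj; decide) (fun j _ => rfl)
    · simp only [St.setR_r]
      norm_num only [if_false]
      rw [hinv.h6, r2 6 (by norm_num), h6]
    · intro r
      rw [Finset.sum_range_succ, if_pos hc, Int.cast_add, ← h.v14 r, ← Int.cast_add, ← m1', ← m2]
      exact hinv.v14 r
    · intro r
      rw [Finset.sum_range_succ, if_pos hc, Int.cast_add, ← h.v15 r, ← Int.cast_add, ← m1', ← m2]
      exact hinv.v15 r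
    · exact hinv.b14
    · exact hinv.b15
  · have hrun2 : (Prog.ite (.reg 22) (.add (.reg 6) (.const 1))
      (seqs [.set 19 (.arr 5 (.reg 22)), .loop 21 (.reg 19) body1]) .skip).run w t1 = t1 := by
      simp only [Prog.run]
      rw [if_neg (fun h => hc (hcond.mp h))]
    rw [hrun2]
    refine ⟨c1, h6, ?_, ?_, ?_, ?_⟩
    · intro r
      rw [Finset.sum_range_succ, if_neg hc, add_zero, m1']
      exact h.v14 r
    · intro r
      rw [Finset.sum_range_succ, if_neg hc, add_zero, m1']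
      exact h.v15 r
    · intro r; rw [m1']; exact h.b14 r
    · intro r; rw [m1']; exact h.b15 r

theorem sum_masks (hMask : MaskStatement) {n a b : ℕ} (M : Fin a → Fin b → ℤ) (e : Prop)
    [Decidable e] (u₀ r : ℕ) (hr : r ≤ u₀) :
    (∑ Z ∈ range (2 ^ a), if (maskSet a Z).card ≤ u₀ then ∑ c ∈ range (3 ^ (maskSet a Z).card),
      ctb (n := n) M e (r : ℤ) (ternFst a Z c) (ternSnd a Z c) else 0) =
    ∑ P : Finset (Fin a), ∑ P' : Finset (Fin a),
      if (P ∪ P').card = r ∧ (e ↔ Even (P.card + P'.card)) then detI M (zval n) P P' else 0 := by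
  have h1 : ∀ Z : ℕ, (if (maskSet a Z).card ≤ u₀ then ∑ c ∈ range (3 ^ (maskSet a Z).card),
      ctb (n := n) M e (r : ℤ) (ternFst a Z c) (ternSnd a Z c) else 0) =
      (fun A : Finset (Fin a) => if A.card ≤ u₀ then ∑ P : Finset (Fin a), ∑ P' : Finset (Fin a),
        (if P ∪ P' = A then ctb (n := n) M e (r : ℤ) P P' else 0) else 0) (maskSet a Z) := by
    intro Z
    simp only
    rw [(hMask a).2.1 Z (fun P P' => ctb (n := n) M e (r : ℤ) P P')]
  simp only [h1]
  rw [(hMask a).1 (fun A : Finset (Fin a) => if A.card ≤ u₀ then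
    ∑ P : Finset (Fin a), ∑ P' : Finset (Fin a),
        (if P ∪ P' = A then ctb (n := n) M e (r : ℤ) P P' else 0) else 0)]
  have h2 : ∀ A : Finset (Fin a), (if A.card ≤ u₀ then
      ∑ P : Finset (Fin a), ∑ P' : Finset (Fin a),
        (if P ∪ P' = A then ctb (n := n) M e (r : ℤ) P P' else 0) else 0) =
      ∑ P : Finset (Fin a), ∑ P' : Finset (Fin a),
        (if P ∪ P' = A then ctb (n := n) M e (r : ℤ) P P' else 0) := by
    intro A
    split_ifs with hA
    · rfl
    · symm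
      refine Finset.sum_eq_zero fun P _ => Finset.sum_eq_zero fun P' _ => ?_
      split_ifs with h3
      · unfold ctb
        rw [if_neg]
        rintro ⟨h4, -⟩
        rw [h3] at h4
        have : r = A.card := by exact_mod_cast h4
        omega
      · rfl
  simp only [h2]
  rw [Finset.sum_comm]
  refine Finset.sum_congr rfl fun P _ => ?_
  rw [Finset.sum_comm]
  refine Finset.sum_congr rfl fun P' _ => ?_
  rw [Finset.sum_ite_eq]
  simp only [Finset.mem_univ, if_true, ctb]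
  have h5 : ((r : ℤ) = (((P ∪ P').card : ℕ) : ℤ)) ↔ (P ∪ P').card = r := by
    constructor
    · intro h; exact_mod_cast h.symm
    · intro h; rw [h]
  simp only [h5]

/-- APP1P. -/
theorem app1p (hDP : DetPStatement) (hMask : MaskStatement) : App1PStatement := by
  intro w n a b u₀ M s hw hctx h6 hu h14 h15 r hr
  have hrun : app1P.run w s = (iter (outer1.run w) 20 s (2 ^ a)).setR 20 (s.r 20) := by
    have h1 : app1P.run w s = (iter (outer1.run w) 20 s (s.r 10).toNat).setR 20 (s.r 20) := rfl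
    rw [h1, hctx.h10]
    congr 2
  have hinv : Inv2 w n a b u₀ M (2 ^ a) (iter (outer1.run w) 20 s (2 ^ a)) := by
    refine iter_inv (outer1.run w) 20 (Inv2 w n a b u₀ M) s _ ?_
      (fun Z hZ t ht => inv2_step hDP hw Z hZ t ht)
    refine ⟨hctx, h6, fun r => ?_, fun r => ?_, fun r => ?_, fun r => ?_⟩
    · rw [h14 r]; simp
    · rw [h15 r]; simp
    · rw [h14 r]; simp
    · rw [h15 r]; simp
  rw [hrun]
  refine ⟨?_, ?_, hinv.b14 r, hinv.b15 r⟩
  · have h1 := hinv.v14 r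
    rw [sum_masks hMask M True u₀ r hr] at h1
    simpa using h1
  · have h1 := hinv.v15 r
    rw [sum_masks hMask M False u₀ r hr] at h1
    simpa using h1

end Pool.Agent.Lib.MP_b2ebfc_lc.H35
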