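import Pool.Agent.Lib.MP_b2ebfc_lc.H35.App1P

/-!
# Module APP2P: correctness of `app2P`
-/

set_option autoImplicit false

namespace Pool.Agent.Lib.MP_b2ebfc_lc.H35

open Finset Pool.Agent.Lib.MP_b2ebfc_lc

/-- The cells of array 16 hold the permanents of the rows `U`. -/
def PermOK (w : ℕ) {a b : ℕ} (M : Fin a → Fin b → ℤ) (U : ℕ) (s : St) : Prop :=
  ∀ W : ℕ, W < 2 ^ b → ((s.m 16 W : ℤ) : ZMod (2 ^ w)) =
    ((perm M (maskSet a U) (maskSet b W) : ℤ) : ZMod (2 ^ w))

theorem body2_val (hDP : DetPStatement) {w n a b : ℕ} {M : Fin a → Fin b → ℤ} {s : St}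
    (hw : w = wordLen n) (h : Ctx n a b M s) (U W : ℕ) (hU : U < 2 ^ a) (hW : W < 2 ^ b)
    (hp : PermOK w M U s) (h20 : s.r 20 = U) (h21 : s.r 21 = W) (u : ℤ) (h22 : s.r 22 = u) :
    ∃ D : ℤ, ((D : ℤ) : ZMod (2 ^ w)) =
        ((perm M (maskSet a U) (maskSet b W) ^ 2 *
          detII M (zval n) (maskSet a U) (maskSet b W) : ℤ) : ZMod (2 ^ w)) ∧
      (body2.run w s).m 18 = Function.update (s.m 18) u ((s.m 18 u + D) % 2 ^ w) := by
  have hn : 0 < n := by have := h.hab; have := h.hb1; omega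
  have h1n : (1 : ℤ) ≤ n := by exact_mod_cast hn
  obtain ⟨s3, hs3⟩ : ∃ t, t = (tab 30 4 10 (.const 0)).run w s := ⟨_, rfl⟩
  obtain ⟨s4, hs4⟩ : ∃ t, t = (tab 30 4 19 (.sub (.const 1) (bitE (.reg 21) (.reg 30)))).run w s3 :=
    ⟨_, rfl⟩
  obtain ⟨s5, hs5⟩ : ∃ t, t = detP.run w s4 := ⟨_, rfl⟩
  have hrun : body2.run w s = (Prog.put 18 (.reg 22) (.add (.arr 18 (.reg 22))
    (.mul (.mul (.arr 16 (.reg 21)) (.arr 16 (.reg 21))) (.reg 24)))).run w s5 := by
    subst hs5 hs4 hs3; rfl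
  have r3 : ∀ j, s3.r j = s.r j := fun j => by rw [hs3]; exact tab_r w 30 4 10 _ s j
  have m3 : ∀ j, j ≠ 10 → s3.m j = s.m j := fun j hj => by
    rw [hs3]; exact tab_m w 30 4 10 _ s j hj
  have r4 : ∀ j, s4.r j = s.r j := fun j => by rw [hs4, tab_r w 30 4 19 _ s3 j, r3]
  have m4 : ∀ j, j ≠ 10 → j ≠ 19 → s4.m j = s.m j := fun j hj hj' => by
    rw [hs4, tab_m w 30 4 19 _ s3 j hj', m3 j hj]
  have c3 : Ctx n a b M s3 := ctx_run h (fun j _ => r3 j) (fun j hj => m3 j (by
    rintro rfl; revert hj; decide))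
  have c4 : Ctx n a b M s4 := ctx_run h (fun j _ => r4 j) (fun j hj => m4 j (by
    rintro rfl; revert hj; decide) (by rintro rfl; revert hj; decide))
  have e10 : ∀ x : Fin b, s4.m 10 ((x : ℕ) : ℤ) = 0 := by
    intro x
    rw [hs4, tab_m w 30 4 19 _ s3 10 (by norm_num), hs3, tab_val w 30 4 10 _ s rfl _
      (by positivity) (by rw [h.hb]; exact_mod_cast x.2)]
    simp [Expr.eval]
  have e19 : ∀ x : Fin b, s4.m 19 ((x : ℕ) : ℤ) = if x ∈ maskSet b W then 0 else 1 := by
    intro x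
    have hev : (Expr.sub (.const 1) (bitE (.reg 21) (.reg 30))).eval (s3.setR 30 ((x : ℕ) : ℤ)) =
        if x ∈ maskSet b W then 0 else 1 := by
      rw [← one_sub_bit W x]
      simp only [bitE, Expr.eval, St.setR_r, St.setR_m]
      norm_num only [if_true, if_false, r3, h21]
      rw [c3.hP2 x (by have := x.2; have := h.hab; omega)]
    rw [hs4, tab_val w 30 4 19 _ s3 rfl _ (by positivity)
      (by rw [c3.hb]; exact_mod_cast x.2), hev, hw]
    refine word_mod (n := n) _ (by split_ifs <;> norm_num) ?_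
    split_ifs <;> nlinarith
  have hdet := hDP w n a b M s4 U c4 hU (by rw [r4]; exact h20)
  rw [← hs5] at hdet
  have r5 : ∀ j, j ≠ 24 → s5.r j = s.r j := fun j hj => by
    rw [hs5, Prog.run_r w detP j (by simp [detP, seqs, birdP, Prog.wrR, hj]) s4, r4]
  have m5 : ∀ j, j ≠ 11 → j ≠ 12 → j ≠ 13 → s5.m j = s4.m j := fun j h1 h2 h3 => by
    rw [hs5]; exact Prog.run_m w detP j (by simp [detP, seqs, birdP, Prog.wrA, h1, h2, h3]) s4
  have hm16 : s5.m 16 = s.m 16 := by
    rw [m5 16 (by norm_num) (by norm_num) (by norm_num), m4 16 (by norm_num) (by norm_num)]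
  have hm18 : s5.m 18 = s.m 18 := by
    rw [m5 18 (by norm_num) (by norm_num) (by norm_num), m4 18 (by norm_num) (by norm_num)]
  refine ⟨s.m 16 W * s.m 16 W * s5.r 24, ?_, ?_⟩
  · rw [Int.cast_mul, Int.cast_mul, hp W hW, hdet]
    unfold detII
    have hf1 : (fun x : Fin b => s4.m 10 ((x : ℕ) : ℤ)) = fun _ => 0 := funext e10
    have hf2 : (fun x : Fin b => s4.m 19 ((x : ℕ) : ℤ)) =
      fun x => if x ∈ maskSet b W then 0 else 1 := funext e19
    rw [hf1, hf2]
    push_cast
    ring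
  · rw [hrun]
    simp only [Prog.run, Expr.eval, St.setM_m, if_true, hm16, hm18, r5 22 (by norm_num),
      r5 21 (by norm_num), h21, h22]

/-- The invariant of the inner loop. -/
structure Inv3 (w n a b : ℕ) (M : Fin a → Fin b → ℤ) (s : St) (U : ℕ) (k : ℕ) (t : St) :
    Prop where
  ctx : Ctx n a b M t
  h20 : t.r 20 = U
  h22 : t.r 22 = (maskSet a U).card
  h6 : t.r 6 = s.r 6
  h5 : t.r 5 = s.r 5
  hp : PermOK w M U t
  v18 : ∀ r : ℕ, ((t.m 18 r : ℤ) : ZMod (2 ^ w)) = ((s.m 18 r + ∑ W ∈ range k,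
    (if r = (maskSet a U).card then perm M (maskSet a U) (maskSet b W) ^ 2 *
          detII M (zval n) (maskSet a U) (maskSet b W) else 0) : ℤ) : ZMod (2 ^ w))
  b18 : ∀ r : ℕ, 0 ≤ t.m 18 r ∧ t.m 18 r < 2 ^ w

theorem body2_wrR (j : ℕ) (hj : j ≠ 24) : body2.wrR j = false := by
  simp [body2, detP, seqs, birdP, Prog.wrR, hj]

theorem body2_wrA (j : ℕ) (h10 : j ≠ 10) (h19 : j ≠ 19) (h11 : j ≠ 11)
    (h12 : j ≠ 12) (h13 : j ≠ 13) (h18 : j ≠ 18) : body2.wrA j = false := by
  simp [body2, detP, seqs, birdP, Prog.wrA, h10, h19, h11, h12, h13, h18]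

theorem inv3_step (hDP : DetPStatement) {w n a b : ℕ} {M : Fin a → Fin b → ℤ} {s : St}
    (hw : w = wordLen n) (U k : ℕ) (hU : U < 2 ^ a) (hk : k < 2 ^ b) (t : St)
    (h : Inv3 w n a b M s U k t) :
    Inv3 w n a b M s U (k + 1) (body2.run w (t.setR 21 k)) := by
  have hctx : Ctx n a b M (t.setR 21 k) := ctx_run h.ctx (fun j hj => by
      rw [St.setR_r, if_neg]; rintro rfl; revert hj; decide) (fun j _ => rfl)
  obtain ⟨D, hD, h18⟩ := body2_val hDP hw hctx U k hU hk h.hp (by simpa using h.h20) (by simp)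
    ((maskSet a U).card : ℤ) (by simpa using h.h22)
  refine ⟨?_, ?_, ?_, ?_, ?_, ?_, ?_, ?_⟩
  · refine ctx_run hctx (fun j hj => Prog.run_r w _ j (body2_wrR j ?_) _)
      (fun j hj => Prog.run_m w _ j (body2_wrA j ?_ ?_ ?_ ?_ ?_ ?_) _)
    all_goals (rintro rfl; revert hj; decide)
  · rw [Prog.run_r w _ 20 (body2_wrR 20 (by norm_num))]; simpa using h.h20
  · rw [Prog.run_r w _ 22 (body2_wrR 22 (by norm_num))]; simpa using h.h22
  · rw [Prog.run_r w _ 6 (body2_wrR 6 (by norm_num))]; simpa using h.h6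
  · rw [Prog.run_r w _ 5 (body2_wrR 5 (by norm_num))]; simpa using h.h5
  · intro W hW
    rw [Prog.run_m w _ 16 (body2_wrA 16 (by norm_num) (by norm_num) (by norm_num) (by norm_num)
      (by norm_num) (by norm_num))]
    exact h.hp W hW
  · intro r
    rw [h18, Finset.sum_range_succ, ← add_assoc]
    have := upd_val (t.m 18) ((maskSet a U).card : ℤ) r D _ (h.v18 r)
    simp only [St.setR_m]
    rw [this]
    have h3 : ((r : ℤ) = ((maskSet a U).card : ℤ)) ↔ r = (maskSet a U).card := by norm_cast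
    by_cases h4 : r = (maskSet a U).card
    · rw [if_pos (h3.mpr h4), if_pos h4, Int.cast_add, hD, ← Int.cast_add]
    · rw [if_neg (fun h5 => h4 (h3.mp h5)), if_neg h4]
  · intro r
    rw [h18]
    exact upd_bd _ _ _ _ (h.b18 r)

/-- The body of the outer loop. -/
def outer2 : Prog := seqs [.set 22 popE,
    .ite (.reg 6) (.reg 22) (.ite (.reg 22) (.add (.reg 5) (.const 1))
      (seqs [permP, .loop 21 (.reg 11) body2]) .skip) .skip]

/-- The invariant of the outer loop. -/
structure Inv4 (w n a b u₀ k₀ : ℕ) (M : Fin a → Fin b → ℤ) (s : St) (k : ℕ) (t : St) : Prop where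
  ctx : Ctx n a b M t
  h6 : t.r 6 = u₀
  h5 : t.r 5 = k₀
  v18 : ∀ r : ℕ, ((t.m 18 r : ℤ) : ZMod (2 ^ w)) = ((s.m 18 r + ∑ U ∈ range k,
    if u₀ < (maskSet a U).card ∧ (maskSet a U).card ≤ k₀ then ∑ W ∈ range (2 ^ b),
    (if r = (maskSet a U).card then perm M (maskSet a U) (maskSet b W) ^ 2 *
          detII M (zval n) (maskSet a U) (maskSet b W) else 0) else 0 : ℤ) : ZMod (2 ^ w))
  b18 : ∀ r : ℕ, 0 ≤ t.m 18 r ∧ t.m 18 r < 2 ^ w

theorem permP_wrR (j : ℕ) : permP.wrR j = false := by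
  simp [permP, seqs, Prog.wrR]

theorem permP_wrA (j : ℕ) (h16 : j ≠ 16) (h17 : j ≠ 17) : permP.wrA j = false := by
  simp [permP, seqs, Prog.wrA, h16, h17]

theorem inv4_step (hDP : DetPStatement) (hPP : PermPStatement) {w n a b u₀ k₀ : ℕ}
    {M : Fin a → Fin b → ℤ} {s : St}
    (hw : w = wordLen n) (U : ℕ) (hU : U < 2 ^ a) (t : St)
    (h : Inv4 w n a b u₀ k₀ M s U t) :
    Inv4 w n a b u₀ k₀ M s (U + 1) (outer2.run w (t.setR 20 U)) := by
  obtain ⟨t0, ht0⟩ : ∃ x, x = t.setR 20 U := ⟨_, rfl⟩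
  have c0 : Ctx n a b M t0 := ctx_run h.ctx (fun j hj => by
      rw [ht0, St.setR_r, if_neg]; rintro rfl; revert hj; decide) (fun j _ => by rw [ht0]; rfl)
  obtain ⟨t1, ht1⟩ : ∃ x, x = (Prog.set 22 popE).run w t0 := ⟨_, rfl⟩
  have hcard : (maskSet a U).card ≤ n := by
    refine (Finset.card_le_univ _).trans ?_
    have := h.ctx.hab
    simp only [Fintype.card_fin]; omega
  have hn : 0 < n := by have := h.ctx.hab; have := h.ctx.hb1; omega
  have hcardw : (((maskSet a U).card : ℕ) : ℤ) % 2 ^ w = (maskSet a U).card := by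
    rw [hw]
    refine word_mod (n := n) _ (by positivity) ?_
    have h1 : (((maskSet a U).card : ℕ) : ℤ) ≤ n := by exact_mod_cast hcard
    have h2 : (1 : ℤ) ≤ n := by exact_mod_cast hn
    nlinarith
  have r1 : ∀ j, j ≠ 22 → t1.r j = t0.r j := fun j hj => by
    rw [ht1]; exact Prog.run_r w _ j (by simpa [Prog.wrR] using hj) t0
  have m1 : t1.m = t0.m := by rw [ht1]; rfl
  have c1 : Ctx n a b M t1 := ctx_run c0 (fun j hj => r1 j (by rintro rfl; revert hj; decide))
    (fun j _ => by rw [m1])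
  have h20 : t1.r 20 = U := by rw [r1 20 (by norm_num), ht0]; simp
  have h22 : t1.r 22 = (maskSet a U).card := by
    rw [ht1]
    simp only [Prog.run, St.setR_r, if_true]
    rw [popE_eval c0 U (by rw [ht0]; simp), hcardw]
  have h6 : t1.r 6 = u₀ := by
    rw [r1 6 (by norm_num), ht0]; simpa using h.h6
  have h5 : t1.r 5 = k₀ := by
    rw [r1 5 (by norm_num), ht0]; simpa using h.h5
  have m1' : t1.m = t.m := by rw [m1, ht0]; rfl
  have hrun : outer2.run w (t.setR 20 U) = (Prog.ite (.reg 6) (.reg 22)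
      (.ite (.reg 22) (.add (.reg 5) (.const 1))
      (seqs [permP, .loop 21 (.reg 11) body2]) .skip) .skip).run w t1 := by
    subst ht1 ht0; rfl
  rw [hrun]
  have hcond : (Expr.reg 6).eval t1 < (Expr.reg 22).eval t1 ↔ u₀ < (maskSet a U).card := by
    simp only [Expr.eval, h22, h6]
    omega
  have hcond2 : (Expr.reg 22).eval t1 < (Expr.add (.reg 5) (.const 1)).eval t1 ↔
      (maskSet a U).card ≤ k₀ := by
    simp only [Expr.eval, h22, h5]
    omega
  by_cases hc : u₀ < (maskSet a U).card ∧ (maskSet a U).card ≤ k₀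
  · obtain ⟨t2, ht2⟩ : ∃ x, x = permP.run w t1 := ⟨_, rfl⟩
    have r2 : ∀ j, t2.r j = t1.r j := fun j => by
      rw [ht2]; exact Prog.run_r w _ j (permP_wrR j) t1
    have m2 : ∀ j, j ≠ 16 → j ≠ 17 → t2.m j = t1.m j := fun j h1 h2 => by
      rw [ht2]; exact Prog.run_m w _ j (permP_wrA j h1 h2) t1
    have c2 : Ctx n a b M t2 := ctx_run c1 (fun j _ => r2 j)
      (fun j hj => m2 j (by rintro rfl; revert hj; decide) (by rintro rfl; revert hj; decide))
    have hrun2 : (Prog.ite (.reg 6) (.reg 22)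
      (.ite (.reg 22) (.add (.reg 5) (.const 1))
      (seqs [permP, .loop 21 (.reg 11) body2]) .skip) .skip).run w t1 =
      (iter (body2.run w) 21 t2 (2 ^ b)).setR 21 (t2.r 21) := by
      have h1 : (Prog.ite (.reg 6) (.reg 22)
        (.ite (.reg 22) (.add (.reg 5) (.const 1))
        (seqs [permP, .loop 21 (.reg 11) body2]) .skip) .skip).run w t1 =
        (seqs [permP, .loop 21 (.reg 11) body2]).run w t1 := by
        simp only [Prog.run]
        rw [if_pos (hcond.mpr hc.1), if_pos (hcond2.mpr hc.2)]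
      rw [h1]
      have h2 : (seqs [permP, .loop 21 (.reg 11) body2]).run w t1 =
        (iter (body2.run w) 21 t2 (t2.r 11).toNat).setR 21 (t2.r 21) := by
        subst ht2; rfl
      rw [h2, c2.h11]
      congr 2
    have hinv : Inv3 w n a b M t2 U (2 ^ b) (iter (body2.run w) 21 t2 (2 ^ b)) := by
      refine iter_inv (body2.run w) 21 (Inv3 w n a b M t2 U) t2 _ ?_
        (fun k hk t ht => inv3_step hDP hw U k hU hk t ht)
      refine ⟨c2, ?_, ?_, rfl, rfl, ?_, fun r => by simp, ?_⟩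
      · rw [r2 20, h20]
      · rw [r2 22, h22]
      · intro W hW
        rw [ht2]
        exact hPP w n a b M t1 U hw c1 hU h20 W hW
      · intro r
        rw [m2 18 (by norm_num) (by norm_num), m1']
        exact h.b18 r
    rw [hrun2]
    refine ⟨?_, ?_, ?_, ?_, ?_⟩
    · exact ctx_run hinv.ctx (fun j hj => by
        rw [St.setR_r, if_neg]; rintro rfl; revert hj; decide) (fun j _ => rfl)
    · simp only [St.setR_r]
      norm_num only [if_false]
      rw [hinv.h6, r2 6, h6]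
    · simp only [St.setR_r]
      norm_num only [if_false]
      rw [hinv.h5, r2 5, h5]
    · intro r
      rw [Finset.sum_range_succ, if_pos hc, ← add_assoc, Int.cast_add, ← h.v18 r, ← Int.cast_add,
        ← m1', ← m2 18 (by norm_num) (by norm_num)]
      exact hinv.v18 r
    · exact hinv.b18
  · have hrun2 : (Prog.ite (.reg 6) (.reg 22)
      (.ite (.reg 22) (.add (.reg 5) (.const 1))
      (seqs [permP, .loop 21 (.reg 11) body2]) .skip) .skip).run w t1 = t1 := by
      simp only [Prog.run]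
      by_cases h1 : u₀ < (maskSet a U).card
      · rw [if_pos (hcond.mpr h1), if_neg (fun h2 => hc ⟨h1, hcond2.mp h2⟩)]
      · rw [if_neg (fun h2 => h1 (hcond.mp h2))]
    rw [hrun2]
    refine ⟨c1, h6, h5, ?_, ?_⟩
    · intro r
      rw [Finset.sum_range_succ, if_neg hc, add_zero, m1']
      exact h.v18 r
    · intro r; rw [m1']; exact h.b18 r

theorem sum_masks2 (hMask : MaskStatement) {n a b : ℕ} (M : Fin a → Fin b → ℤ)
    (u₀ k r : ℕ) (hr : u₀ < r) (hk : r ≤ k) :
    (∑ U ∈ range (2 ^ a),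
      if u₀ < (maskSet a U).card ∧ (maskSet a U).card ≤ k then ∑ W ∈ range (2 ^ b),
      (if r = (maskSet a U).card then perm M (maskSet a U) (maskSet b W) ^ 2 *
          detII M (zval n) (maskSet a U) (maskSet b W) else 0) else 0) =
    ∑ U ∈ powersetCard r (univ : Finset (Fin a)), ∑ W : Finset (Fin b),
        perm M U W ^ 2 * detII M (zval n) U W := by
  have h1 : ∀ U : ℕ,
      (if u₀ < (maskSet a U).card ∧ (maskSet a U).card ≤ k then ∑ W ∈ range (2 ^ b),
      (if r = (maskSet a U).card then perm M (maskSet a U) (maskSet b W) ^ 2 *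
          detII M (zval n) (maskSet a U) (maskSet b W) else 0) else 0) =
      (fun A : Finset (Fin a) => if A.card = r then ∑ W : Finset (Fin b),
        perm M A W ^ 2 * detII M (zval n) A W else 0) (maskSet a U) := by
    intro U
    have h2 := (hMask b).1 (fun W => if r = (maskSet a U).card then
      perm M (maskSet a U) W ^ 2 * detII M (zval n) (maskSet a U) W else 0)
    rw [h2]
    by_cases h3 : (maskSet a U).card = r
    · rw [if_pos (by rw [h3]; exact ⟨hr, hk⟩)]
      simp only [if_pos h3, if_pos h3.symm]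
    · simp only [if_neg h3, if_neg (fun h4 => h3 (Eq.symm h4)), Finset.sum_const_zero, ite_self]
  simp only [h1]
  rw [(hMask a).1 (fun A : Finset (Fin a) => if A.card = r then ∑ W : Finset (Fin b),
        perm M A W ^ 2 * detII M (zval n) A W else 0)]
  rw [← Finset.sum_filter]
  refine Finset.sum_congr ?_ fun _ _ => rfl
  ext A
  simp [Finset.mem_powersetCard]

/-- APP2P. -/
theorem app2p (hDP : DetPStatement) (hPP : PermPStatement) (hMask : MaskStatement) :
    App2PStatement := by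
  intro w n a b u₀ k M s hw hctx h6 h5 h18 u hu huk
  have hrun : app2P.run w s = (iter (outer2.run w) 20 s (2 ^ a)).setR 20 (s.r 20) := by
    have h1 : app2P.run w s = (iter (outer2.run w) 20 s (s.r 10).toNat).setR 20 (s.r 20) := rfl
    rw [h1, hctx.h10]
    congr 2
  have hinv : Inv4 w n a b u₀ k M s (2 ^ a) (iter (outer2.run w) 20 s (2 ^ a)) := by
    refine iter_inv (outer2.run w) 20 (Inv4 w n a b u₀ k M s) s _ ?_
      (fun U hU t ht => inv4_step hDP hPP hw U hU t ht)
    refine ⟨hctx, h6, h5, fun r => by simp, fun r => ?_⟩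
    rw [h18 r]; simp
  rw [hrun]
  refine ⟨?_, hinv.b18 u⟩
  have h1 := hinv.v18 u
  rw [sum_masks2 hMask M u₀ k u hu huk, h18 u, zero_add] at h1
  exact h1

end Pool.Agent.Lib.MP_b2ebfc_lc.H35
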