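import Pool.Agent.Lib.MP_b2ebfc_lc.H35.Tools

/-!
# Module CONSTP: constants and tables
-/

set_option autoImplicit false

namespace Pool.Agent.Lib.MP_b2ebfc_lc.H35

open Finset Pool.Agent.Lib.MP_b2ebfc_lc

theorem seqs_append (w : ℕ) (l1 l2 : List Prog) : ∀ s : St,
    (seqs (l1 ++ l2)).run w s = (seqs l2).run w ((seqs l1).run w s) := by
  induction l1 with
  | nil => intro s; rfl
  | cons p l ih => intro s; exact ih _

theorem mod8 {n : ℕ} (x : ℤ) (h0 : 0 ≤ x) (h1 : x ≤ 8 * ((n : ℤ) + 2) ^ 2) :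
    x % 2 ^ wordLen n = x := by
  refine Int.emod_eq_of_lt h0 (lt_of_le_of_lt h1 ?_)
  have h2 : 8 * (n + 2) ^ 2 < 2 ^ wordLen n := by
    calc 8 * (n + 2) ^ 2 < 2 ^ (8 * (n + 2) ^ 2) := Nat.lt_two_pow_self
      _ ≤ 2 ^ wordLen n := by
        refine Nat.pow_le_pow_right (by norm_num) ?_
        unfold wordLen
        exact Nat.mul_le_mul_left _ (Nat.pow_le_pow_right (by omega) (by norm_num))
  exact_mod_cast h2

/-- A loop that tabulates powers. -/
theorem powtab (w A N : ℕ) (e : Expr) (q : ℤ) (s : St) (hA : s.m A 0 = 1)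
    (heR : e.rdR 30 = false) (heA : e.rdA A = false) (he : e.eval s = q)
    (hq : ∀ i ≤ N, q ^ i % 2 ^ w = q ^ i) :
    (∀ j ≠ 30, (iter ((Prog.put A (.add (.reg 30) (.const 1)) (.mul e (.arr A (.reg 30)))).run w)
      30 s N).r j = s.r j) ∧
    (∀ j ≠ A, (iter ((Prog.put A (.add (.reg 30) (.const 1)) (.mul e (.arr A (.reg 30)))).run w)
      30 s N).m j = s.m j) ∧
    (∀ i : ℕ, i ≤ N → (iter ((Prog.put A (.add (.reg 30) (.const 1))
      (.mul e (.arr A (.reg 30)))).run w) 30 s N).m A i = q ^ i) := by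
  have key := iter_inv ((Prog.put A (.add (.reg 30) (.const 1))
    (.mul e (.arr A (.reg 30)))).run w) 30
    (fun k t => (∀ j ≠ 30, t.r j = s.r j) ∧ (∀ j ≠ A, t.m j = s.m j) ∧
      (∀ i : ℕ, i ≤ k → t.m A i = q ^ i)) s N ?_ ?_
  · exact key
  · refine ⟨fun j _ => rfl, fun j _ => rfl, fun i hi => ?_⟩
    interval_cases i
    simpa using hA
  · rintro k hk t ⟨h1, h2, h3⟩
    refine ⟨fun j hj => ?_, fun j hj => ?_, fun i hi => ?_⟩
    · simp only [Prog.run, St.setM_r, St.setR_r, if_neg hj]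
      exact h1 j hj
    · simp only [Prog.run, St.setM_m, St.setR_m, if_neg hj]
      exact h2 j hj
    · have hev : e.eval (t.setR 30 k) = q := by
        rw [← he]
        refine e.eval_congr _ _ (fun j hj => ?_) (fun j hj => ?_)
        · have hj30 : j ≠ 30 := by rintro rfl; rw [heR] at hj; exact absurd hj (by simp)
          simp only [St.setR_r, if_neg hj30]
          exact h1 j hj30
        · have hjA : j ≠ A := by rintro rfl; rw [heA] at hj; exact absurd hj (by simp)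
          exact h2 j hjA
      simp only [Prog.run, St.setM_m, if_true, Expr.eval, St.setR_r, St.setR_m, hev,
        Function.update_apply]
      by_cases hik : (i : ℤ) = (k : ℤ) + 1
      · have hik' : i = k + 1 := by exact_mod_cast hik
        rw [if_pos hik, h3 k le_rfl, hik', ← pow_succ', hq (k + 1) hk]
      · rw [if_neg hik]
        refine h3 i ?_
        rcases Nat.lt_or_ge k i with h | h
        · exact absurd (by push_cast [show i = k + 1 by omega]; rfl) hik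
        · exact h

theorem idx_inj {n : ℕ} {i j i' j' : ℕ} (hj : j ≤ n) (hj' : j' ≤ n)
    (h : (i : ℤ) * (n + 1) + j = (i' : ℤ) * (n + 1) + j') : i = i' ∧ j = j' := by
  have h1 : i * (n + 1) + j = i' * (n + 1) + j' := by exact_mod_cast h
  have h2 : (i * (n + 1) + j) / (n + 1) = i := by
    rw [Nat.add_comm, Nat.add_mul_div_right _ _ (by omega), Nat.div_eq_of_lt (by omega)]; omega
  have h3 : (i' * (n + 1) + j') / (n + 1) = i' := by
    rw [Nat.add_comm, Nat.add_mul_div_right _ _ (by omega), Nat.div_eq_of_lt (by omega)]; omega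
  have h4 : i = i' := by rw [← h2, ← h3, h1]
  subst h4
  exact ⟨rfl, by omega⟩

/-- The value stored in the table of binomials. -/
def binE : Expr :=
  .cond (.reg 31) (.const 1) (.const 1) (.cond (.reg 30) (.const 1) (.const 0)
      (.add (.arr 6 (.add (.mul (.sub (.reg 30) (.const 1)) (.reg 18))
          (.sub (.reg 31) (.const 1))))
        (.arr 6 (.add (.mul (.sub (.reg 30) (.const 1)) (.reg 18)) (.reg 31)))))

/-- One entry of the table of binomials. -/
def binP : Prog := .put 6 (.add (.mul (.reg 30) (.reg 18)) (.reg 31)) binE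

theorem choose_mod {n : ℕ} (i j : ℕ) (hi : i ≤ n) :
    ((i.choose j : ℕ) : ℤ) % 2 ^ wordLen n = (i.choose j : ℕ) := by
  refine Int.emod_eq_of_lt (by positivity) ?_
  have h1 : i.choose j < 2 ^ wordLen n := by
    calc i.choose j ≤ 2 ^ i := Nat.choose_le_two_pow i j
      _ < 2 ^ wordLen n := by
        refine Nat.pow_lt_pow_right (by norm_num) ?_
        unfold wordLen
        have h7 : 1 ≤ (n + 2) ^ 3 := Nat.one_le_pow _ _ (by omega)
        calc i < 8 * ((n + 2) * 1) := by omega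
          _ ≤ 8 * ((n + 2) * (n + 2) ^ 3) := by gcongr
          _ = 8 * (n + 2) ^ 4 := by ring
  exact_mod_cast h1

theorem binE_eval {n : ℕ} (t : St) (k l : ℕ) (h18 : t.r 18 = n + 1) (h30 : t.r 30 = k)
    (h31 : t.r 31 = l) (hl : l ≤ n)
    (hrow : ∀ j : ℕ, 1 ≤ k → j ≤ n → t.m 6 (((k - 1 : ℕ) : ℤ) * (n + 1) + j) =
      ((k - 1).choose j : ℕ)) : binE.eval t = (k.choose l : ℕ) := by
  have e0 : binE.eval t = if t.r 31 < 1 then 1 else if t.r 30 < 1 then 0 else
      t.m 6 ((t.r 30 - 1) * t.r 18 + (t.r 31 - 1)) +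
        t.m 6 ((t.r 30 - 1) * t.r 18 + t.r 31) := rfl
  rcases Nat.eq_zero_or_pos l with hl0 | hl0
  · subst hl0
    have : binE.eval t = 1 := by
      have h1 : (t.r 31) < 1 := by rw [h31]; norm_num
      rw [e0, if_pos h1]
    rw [this]; simp
  · have h1 : ¬ (t.r 31) < 1 := by rw [h31]; push_cast; omega
    rcases Nat.eq_zero_or_pos k with hk0 | hk0
    · subst hk0
      have : binE.eval t = 0 := by
        have h2 : (t.r 30) < 1 := by rw [h30]; norm_num
        rw [e0, if_neg h1, if_pos h2]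
      rw [this, Nat.choose_eq_zero_of_lt hl0]; simp
    · have h2 : ¬ (t.r 30) < 1 := by rw [h30]; push_cast; omega
      have : binE.eval t = t.m 6 ((t.r 30 - 1) * t.r 18 + (t.r 31 - 1)) +
          t.m 6 ((t.r 30 - 1) * t.r 18 + t.r 31) := by
        rw [e0, if_neg h1, if_neg h2]
      rw [this, h30, h31, h18]
      have hk' : ((k : ℤ) - 1) = ((k - 1 : ℕ) : ℤ) := by push_cast [hk0]; ring
      have hl' : ((l : ℤ) - 1) = ((l - 1 : ℕ) : ℤ) := by push_cast [hl0]; ring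
      rw [hk', hl', hrow _ hk0 (by omega), hrow _ hk0 hl]
      obtain ⟨k', rfl⟩ : ∃ k', k = k' + 1 := ⟨k - 1, by omega⟩
      obtain ⟨l', rfl⟩ : ∃ l', l = l' + 1 := ⟨l - 1, by omega⟩
      rw [Nat.choose_succ_succ]
      push_cast
      simp

/-- The table of binomials. -/
theorem bintab {w n : ℕ} (hw : w = wordLen n) (s : St) (h18 : s.r 18 = n + 1) (N : ℕ)
    (hN : N ≤ n + 1) :
    (∀ j, j ≠ 30 → (iter ((Prog.loop 31 (.reg 18) binP).run w) 30 s N).r j = s.r j) ∧
    (∀ j, j ≠ 6 → (iter ((Prog.loop 31 (.reg 18) binP).run w) 30 s N).m j = s.m j) ∧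
    (∀ i j : ℕ, i < N → j ≤ n → (iter ((Prog.loop 31 (.reg 18) binP).run w) 30 s N).m 6
      ((i : ℤ) * (n + 1) + j) = (i.choose j : ℕ)) := by
  refine iter_inv ((Prog.loop 31 (.reg 18) binP).run w) 30
    (fun k t => (∀ j, j ≠ 30 → t.r j = s.r j) ∧ (∀ j, j ≠ 6 → t.m j = s.m j) ∧
      (∀ i j : ℕ, i < k → j ≤ n → t.m 6 ((i : ℤ) * (n + 1) + j) = (i.choose j : ℕ))) s N ?_ ?_
  · exact ⟨fun j _ => rfl, fun j _ => rfl, fun i j hi _ => absurd hi (by omega)⟩
  · rintro k hk t ⟨h1, h2, h3⟩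
    obtain ⟨t0, ht0⟩ : ∃ x, x = t.setR 30 k := ⟨_, rfl⟩
    rw [← ht0]
    have hr0 : ∀ j, j ≠ 30 → t0.r j = s.r j := fun j hj => by
      rw [ht0, St.setR_r, if_neg hj]; exact h1 j hj
    have h300 : t0.r 30 = k := by rw [ht0]; simp
    have hm0 : t0.m = t.m := by rw [ht0]; rfl
    have hrun : (Prog.loop 31 (.reg 18) binP).run w t0 =
        (iter (binP.run w) 31 t0 (n + 1)).setR 31 (t0.r 31) := by
      have e1 : (Prog.loop 31 (.reg 18) binP).run w t0 =
        (iter (binP.run w) 31 t0 (t0.r 18).toNat).setR 31 (t0.r 31) := rfl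
      rw [e1, hr0 18 (by norm_num), h18]
      congr 2
    have hinner : (∀ j, j ≠ 31 → (iter (binP.run w) 31 t0 (n + 1)).r j = t0.r j) ∧
        (∀ j, j ≠ 6 → (iter (binP.run w) 31 t0 (n + 1)).m j = t0.m j) ∧
        (∀ i j : ℕ, j ≤ n → (i < k ∨ (i = k ∧ j < n + 1)) →
          (iter (binP.run w) 31 t0 (n + 1)).m 6 ((i : ℤ) * (n + 1) + j) = (i.choose j : ℕ)) := by
      refine iter_inv (binP.run w) 31
        (fun l t' => (∀ j, j ≠ 31 → t'.r j = t0.r j) ∧ (∀ j, j ≠ 6 → t'.m j = t0.m j) ∧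
          (∀ i j : ℕ, j ≤ n → (i < k ∨ (i = k ∧ j < l)) →
            t'.m 6 ((i : ℤ) * (n + 1) + j) = (i.choose j : ℕ))) t0 (n + 1) ?_ ?_
      · refine ⟨fun j _ => rfl, fun j _ => rfl, fun i j hj hi => ?_⟩
        rw [hm0]
        exact h3 i j (by omega) hj
      · rintro l hl t' ⟨g1, g2, g3⟩
        have hev : binE.eval (t'.setR 31 l) = (k.choose l : ℕ) := by
          refine binE_eval (n := n) _ k l ?_ ?_ (by simp) (by omega) ?_
          · rw [St.setR_r, if_neg (by norm_num), g1 18 (by norm_num), hr0 18 (by norm_num), h18]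
          · rw [St.setR_r, if_neg (by norm_num), g1 30 (by norm_num), h300]
          · intro j hk1 hj
            exact g3 (k - 1) j hj (Or.inl (by omega))
        have hrunb : binP.run w (t'.setR 31 l) = (t'.setR 31 l).setM 6
            ((k : ℤ) * (n + 1) + l) ((k.choose l : ℕ) : ℤ) := by
          have e1 : binP.run w (t'.setR 31 l) = (t'.setR 31 l).setM 6
            ((Expr.add (.mul (.reg 30) (.reg 18)) (.reg 31)).eval (t'.setR 31 l))
            (binE.eval (t'.setR 31 l) % 2 ^ w) := rfl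
          rw [e1, hev, hw, choose_mod k l (by omega)]
          simp only [Expr.eval, St.setR_r]
          norm_num only [if_true, if_false, g1 30 (by norm_num), g1 18 (by norm_num), h300,
            hr0 18 (by norm_num), h18]
        rw [hrunb]
        refine ⟨fun j hj => ?_, fun j hj => ?_, fun i j hj hi => ?_⟩
        · rw [St.setM_r, St.setR_r, if_neg hj]; exact g1 j hj
        · rw [St.setM_m, if_neg hj]; exact g2 j hj
        · rw [St.setM_m, if_pos rfl, Function.update_apply]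
          split_ifs with he
          · obtain ⟨e1, e2⟩ := idx_inj hj (by omega) he
            rw [e1, e2]
          · refine g3 i j hj ?_
            rcases hi with hi | ⟨hi, hj'⟩
            · exact Or.inl hi
            · refine Or.inr ⟨hi, ?_⟩
              rcases Nat.lt_or_ge j l with h | h
              · exact h
              · exfalso
                apply he
                rw [hi, show j = l by omega]
    rw [hrun]
    refine ⟨fun j hj => ?_, fun j hj => ?_, fun i j hi hj => ?_⟩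
    · rw [St.setR_r]
      split_ifs with h31
      · rw [h31]; exact hr0 31 (by norm_num)
      · rw [hinner.1 j h31]; exact hr0 j hj
    · rw [St.setR_m, hinner.2.1 j hj, hm0]; exact h2 j hj
    · rw [St.setR_m]
      exact hinner.2.2 i j hj (by omega)

/-- The program that tabulates powers. -/
theorem powprog (w A N N' : ℕ) (e : Expr) (q : ℤ) (s : St) (hN : s.r N = N')
    (hw : 0 < w) (heR : e.rdR 30 = false) (heA : e.rdA A = false) (he : e.eval s = q)
    (hq : ∀ i ≤ N', q ^ i % 2 ^ w = q ^ i) (t : St)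
    (ht : t = (seqs [.put A (.const 0) (.const 1), .loop 30 (.reg N)
      (.put A (.add (.reg 30) (.const 1)) (.mul e (.arr A (.reg 30))))]).run w s) :
    (∀ j, t.r j = s.r j) ∧ (∀ j, j ≠ A → t.m j = s.m j) ∧ (∀ i : ℕ, i ≤ N' → t.m A i = q ^ i) := by
  obtain ⟨s1, hs1⟩ : ∃ x, x = s.setM A 0 1 := ⟨_, rfl⟩
  have h12 : (1 : ℤ) % 2 ^ w = 1 := by
    refine Int.emod_eq_of_lt (by norm_num) ?_
    exact one_lt_pow₀ (by norm_num) (by omega)
  have hrun : t = (iter ((Prog.put A (.add (.reg 30) (.const 1))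
      (.mul e (.arr A (.reg 30)))).run w) 30 s1 N').setR 30 (s1.r 30) := by
    rw [ht]
    have e1 : (seqs [.put A (.const 0) (.const 1), .loop 30 (.reg N)
      (.put A (.add (.reg 30) (.const 1)) (.mul e (.arr A (.reg 30))))]).run w s =
      (iter ((Prog.put A (.add (.reg 30) (.const 1))
      (.mul e (.arr A (.reg 30)))).run w) 30 (s.setM A 0 (1 % 2 ^ w))
      ((s.setM A 0 (1 % 2 ^ w)).r N).toNat).setR 30 ((s.setM A 0 (1 % 2 ^ w)).r 30) := rfl
    rw [e1, h12, ← hs1]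
    have e2 : (s1.r N).toNat = N' := by rw [hs1, St.setM_r, hN]; simp
    rw [e2]
  have he' : e.eval s1 = q := by
    rw [← he]
    refine e.eval_congr _ _ (fun j _ => by rw [hs1]; rfl) (fun j hj => ?_)
    have hjA : j ≠ A := by rintro rfl; rw [heA] at hj; exact absurd hj (by simp)
    rw [hs1, St.setM_m, if_neg hjA]
  obtain ⟨h1, h2, h3⟩ := powtab w A N' e q s1 (by rw [hs1]; simp) heR heA he' hq
  rw [hrun]
  refine ⟨fun j => ?_, fun j hj => ?_, fun i hi => ?_⟩
  · rw [St.setR_r]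
    split_ifs with hj
    · rw [hj, hs1]; rfl
    · rw [h1 j hj, hs1]; rfl
  · rw [St.setR_m, h2 j hj, hs1, St.setM_m, if_neg hj]
  · rw [St.setR_m]; exact h3 i hi

theorem pow2_mod {n : ℕ} (i : ℕ) (h : i < wordLen n) : (2 : ℤ) ^ i % 2 ^ wordLen n = 2 ^ i :=
  Int.emod_eq_of_lt (by positivity) (pow_lt_pow_right₀ (by norm_num) h)

theorem lt_wordLen {n x : ℕ} (h : x ≤ 8 * (n + 2) ^ 2) : x < wordLen n := by
  unfold wordLen
  have h1 : (n + 2) ^ 2 < (n + 2) ^ 4 := Nat.pow_lt_pow_right (by omega) (by norm_num)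
  omega

theorem zval_pow_mod {n b : ℕ} (hb : b ≤ n) (i : ℕ) (hi : i ≤ (b + 1) * (b + 1)) :
    zval n ^ i % 2 ^ wordLen n = zval n ^ i := by
  unfold zval
  rw [← pow_mul]
  refine pow2_mod _ ?_
  unfold wordLen
  have h1 : i < (n + 2) ^ 2 := by
    calc i ≤ (b + 1) * (b + 1) := hi
      _ < (n + 2) * (n + 2) := Nat.mul_lt_mul_of_lt_of_lt (by omega) (by omega)
      _ = (n + 2) ^ 2 := by ring
  calc 8 * (n + 2) ^ 2 * i < 8 * (n + 2) ^ 2 * (n + 2) ^ 2 :=
        Nat.mul_lt_mul_of_pos_left h1 (by positivity)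
    _ = 8 * (n + 2) ^ 4 := by ring

theorem lin8 {n : ℕ} (x : ℤ) (h : x ≤ n + 1) : x ≤ 8 * ((n : ℤ) + 2) ^ 2 := by
  nlinarith [(by positivity : (0 : ℤ) ≤ n)]

theorem sq8 {n : ℕ} (x : ℤ) (h0 : 0 ≤ x) (h : x ≤ n + 1) : x * x ≤ 8 * ((n : ℤ) + 2) ^ 2 := by
  nlinarith [(by positivity : (0 : ℤ) ≤ n)]

theorem le8 {n i : ℕ} (h : i ≤ n) : i ≤ 8 * (n + 2) ^ 2 := by nlinarith

/-- The loop that computes `z`. -/
theorem zloop {w n : ℕ} (hw : w = wordLen n) (s : St) (h8 : s.r 8 = 8 * ((n : ℤ) + 2) ^ 2)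
    (h7 : s.r 7 = 1) (t : St)
    (ht : t = (Prog.loop 30 (.reg 8) (.set 7 (.mul (.const 2) (.reg 7)))).run w s) :
    t.r 7 = zval n ∧ (∀ j, j ≠ 7 → t.r j = s.r j) ∧ t.m = s.m := by
  have hrun : t = (iter ((Prog.set 7 (.mul (.const 2) (.reg 7))).run w) 30 s
      (8 * (n + 2) ^ 2)).setR 30 (s.r 30) := by
    rw [ht]
    have e1 : (Prog.loop 30 (.reg 8) (.set 7 (.mul (.const 2) (.reg 7)))).run w s =
      (iter ((Prog.set 7 (.mul (.const 2) (.reg 7))).run w) 30 s (s.r 8).toNat).setR 30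
        (s.r 30) := rfl
    rw [e1, h8]
    congr 2
  have key := iter_inv ((Prog.set 7 (.mul (.const 2) (.reg 7))).run w) 30
    (fun k t => t.r 7 = 2 ^ k ∧ (∀ j, j ≠ 7 → j ≠ 30 → t.r j = s.r j) ∧ t.m = s.m) s
    (8 * (n + 2) ^ 2) ?_ ?_
  · rw [hrun]
    refine ⟨?_, fun j hj => ?_, ?_⟩
    · rw [St.setR_r, if_neg (by norm_num)]; exact key.1
    · rw [St.setR_r]
      split_ifs with h30
      · rw [h30]
      · exact key.2.1 j hj h30
    · rw [St.setR_m]; exact key.2.2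
  · exact ⟨by rw [h7]; simp, fun j _ _ => rfl, rfl⟩
  · rintro k hk t ⟨g1, g2, g3⟩
    refine ⟨?_, fun j hj hj' => ?_, ?_⟩
    · have e1 : ((Prog.set 7 (.mul (.const 2) (.reg 7))).run w (t.setR 30 k)).r 7 =
        (2 * t.r 7) % 2 ^ w := rfl
      rw [e1, g1, ← pow_succ', hw]
      exact pow2_mod _ (lt_wordLen hk)
    · have e1 : ((Prog.set 7 (.mul (.const 2) (.reg 7))).run w (t.setR 30 k)).r j =
        (t.setR 30 k).r j := Prog.run_r w _ j (by simpa [Prog.wrR] using hj) _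
      rw [e1, St.setR_r, if_neg hj']
      exact g2 j hj hj'
    · exact g3

theorem setsA {w n a b k : ℕ} (hw : w = wordLen n) (s : St) (h0 : s.r 0 = n) (h3 : s.r 3 = a)
    (h4 : s.r 4 = b) (h5 : s.r 5 = k) (hka : k ≤ a) (hab : a ≤ b) (habn : a + b = n)
    (hb1 : 1 ≤ b) (t : St) (ht : t = (seqs [
      .set 13 (.sub (.reg 4) (.const 1)),
      .set 14 (.mul (.add (.reg 4) (.const 1)) (.add (.reg 4) (.const 1))),
      .set 15 (.mul (.reg 4) (.reg 4)),
      .set 17 (.add (.reg 5) (.const 1)),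
      .set 18 (.add (.reg 0) (.const 1)),
      .set 8 (.mul (.const 8) (.mul (.add (.reg 0) (.const 2)) (.add (.reg 0) (.const 2)))),
      .set 6 (.cond (.mul (.const 13) (.reg 3)) (.mul (.const 12) (.reg 4)) (.reg 3)
        (.div (.mul (.const 5) (.reg 3)) (.const 8)))]).run w s) :
    t.r 13 = b - 1 ∧ t.r 14 = (b + 1) * (b + 1) ∧ t.r 15 = b * b ∧ t.r 17 = k + 1 ∧
    t.r 18 = n + 1 ∧ t.r 8 = 8 * ((n : ℤ) + 2) ^ 2 ∧
    t.r 6 = (if 13 * a < 12 * b then a else 5 * a / 8 : ℕ) ∧ t.r 0 = n ∧ t.r 3 = a ∧ t.r 4 = b ∧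
    t.m = s.m := by
  have hbn : (b : ℤ) ≤ n := by exact_mod_cast (by omega : b ≤ n)
  have han : (a : ℤ) ≤ n := by exact_mod_cast (by omega : a ≤ n)
  have hkn : (k : ℤ) ≤ n := by exact_mod_cast (by omega : k ≤ n)
  have hb0 : (1 : ℤ) ≤ b := by exact_mod_cast hb1
  have ha0 : (0 : ℤ) ≤ a := by positivity
  have e13 : t.r 13 = (s.r 4 - 1) % 2 ^ w := by rw [ht]; rfl
  have e14 : t.r 14 = ((s.r 4 + 1) * (s.r 4 + 1)) % 2 ^ w := by rw [ht]; rfl
  have e15 : t.r 15 = (s.r 4 * s.r 4) % 2 ^ w := by rw [ht]; rfl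
  have e17 : t.r 17 = (s.r 5 + 1) % 2 ^ w := by rw [ht]; rfl
  have e18 : t.r 18 = (s.r 0 + 1) % 2 ^ w := by rw [ht]; rfl
  have e8 : t.r 8 = (8 * ((s.r 0 + 2) * (s.r 0 + 2))) % 2 ^ w := by rw [ht]; rfl
  have e6 : t.r 6 = (if 13 * s.r 3 < 12 * s.r 4 then s.r 3 else (5 * s.r 3) / 8) % 2 ^ w := by
    rw [ht]; rfl
  rw [h4] at e13 e14 e15
  rw [h5] at e17
  rw [h0] at e18 e8
  rw [h3, h4] at e6
  rw [e13, e14, e15, e17, e18, e8, e6, hw]
  refine ⟨mod8 _ (by linarith) (lin8 _ (by linarith)),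
    mod8 _ (by positivity) (sq8 _ (by positivity) (by linarith)),
    mod8 _ (by positivity) (sq8 _ (by positivity) (by linarith)),
    mod8 _ (by positivity) (lin8 _ (by linarith)),
    mod8 _ (by positivity) (lin8 _ le_rfl), ?_, ?_, ?_, ?_, ?_, ?_⟩
  · rw [mod8 (n := n) (8 * (((n : ℤ) + 2) * ((n : ℤ) + 2))) (by positivity) (le_of_eq (by ring))]
    ring
  · have e1 : (if 13 * (a : ℤ) < 12 * (b : ℤ) then (a : ℤ) else (5 * (a : ℤ)) / 8) =
        ((if 13 * a < 12 * b then a else 5 * a / 8 : ℕ) : ℤ) := by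
      by_cases h : 13 * a < 12 * b
      · rw [if_pos (by exact_mod_cast h), if_pos h]
      · rw [if_neg (by exact_mod_cast h), if_neg h]
        push_cast
        rfl
    rw [e1]
    refine mod8 _ (by positivity) ?_
    have : (if 13 * a < 12 * b then a else 5 * a / 8) ≤ n := by split_ifs <;> omega
    have h2 : (((if 13 * a < 12 * b then a else 5 * a / 8 : ℕ)) : ℤ) ≤ n := by exact_mod_cast this
    exact lin8 _ (by linarith)
  · rw [ht]; exact h0
  · rw [ht]; exact h3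
  · rw [ht]; exact h4
  · rw [ht]; rfl

/-- CONSTP. -/
theorem constp : ConstPStatement := by
  intro w n a b k s hw h0 h3 h4 h5 hka hab habn hb1 s' hs'
  have hwpos : 0 < w := by rw [hw]; exact lt_wordLen (Nat.zero_le _)
  have hbn : b ≤ n := by omega
  obtain ⟨tA, htA⟩ : ∃ t, t = (seqs [
      .set 13 (.sub (.reg 4) (.const 1)),
      .set 14 (.mul (.add (.reg 4) (.const 1)) (.add (.reg 4) (.const 1))),
      .set 15 (.mul (.reg 4) (.reg 4)),
      .set 17 (.add (.reg 5) (.const 1)),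
      .set 18 (.add (.reg 0) (.const 1)),
      .set 8 (.mul (.const 8) (.mul (.add (.reg 0) (.const 2)) (.add (.reg 0) (.const 2)))),
      .set 6 (.cond (.mul (.const 13) (.reg 3)) (.mul (.const 12) (.reg 4)) (.reg 3)
        (.div (.mul (.const 5) (.reg 3)) (.const 8)))]).run w s := ⟨_, rfl⟩
  obtain ⟨tB, htB⟩ : ∃ t, t = (seqs [.put 4 (.const 0) (.const 1), .loop 30 (.reg 0)
    (.put 4 (.add (.reg 30) (.const 1)) (.mul (.const 2) (.arr 4 (.reg 30))))]).run w tA :=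
    ⟨_, rfl⟩
  obtain ⟨tC, htC⟩ : ∃ t, t = (seqs [.put 5 (.const 0) (.const 1), .loop 30 (.reg 0)
    (.put 5 (.add (.reg 30) (.const 1)) (.mul (.const 3) (.arr 5 (.reg 30))))]).run w tB :=
    ⟨_, rfl⟩
  obtain ⟨tD, htD⟩ : ∃ t, t = (seqs [.set 10 (.arr 4 (.reg 3)), .set 11 (.arr 4 (.reg 4)),
    .set 7 (.const 1)]).run w tC := ⟨_, rfl⟩
  obtain ⟨tE, htE⟩ : ∃ t, t = (Prog.loop 30 (.reg 8) (.set 7 (.mul (.const 2) (.reg 7)))).run w tD :=
    ⟨_, rfl⟩
  obtain ⟨tF, htF⟩ : ∃ t, t = (seqs [.put 7 (.const 0) (.const 1), .loop 30 (.reg 14)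
    (.put 7 (.add (.reg 30) (.const 1)) (.mul (.reg 7) (.arr 7 (.reg 30))))]).run w tE :=
    ⟨_, rfl⟩
  obtain ⟨tG, htG⟩ : ∃ t, t = (Prog.set 12 (.arr 7 (.add (.reg 4) (.const 1)))).run w tF :=
    ⟨_, rfl⟩
  have hrun : s' = (Prog.loop 30 (.reg 18) (.loop 31 (.reg 18) binP)).run w tG := by
    rw [hs']
    subst htG htF htE htD htC htB htA
    rfl
  obtain ⟨a13, a14, a15, a17, a18, a8, a6, a0, a3, a4, am⟩ :=
    setsA hw s h0 h3 h4 h5 hka hab habn hb1 tA htA
  obtain ⟨bR, bM, b4⟩ := powprog w 4 0 n (.const 2) 2 tA a0 hwpos rfl rfl rfl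
    (fun i hi => by rw [hw]; exact pow2_mod i (lt_wordLen (le8 (by omega)))) tB htB
  obtain ⟨cR, cM, c5⟩ := powprog w 5 0 n (.const 3) 3 tB (by rw [bR]; exact a0) hwpos rfl rfl rfl
    (fun i hi => by rw [hw]; exact pow3_mod i hi) tC htC
  have hcr : ∀ j, tC.r j = tA.r j := fun j => by rw [cR, bR]
  have cm4 : ∀ i : ℕ, i ≤ n → tC.m 4 i = 2 ^ i := fun i hi => by
    rw [cM 4 (by norm_num)]; exact b4 i hi
  have d10 : tD.r 10 = 2 ^ a := by
    have e1 : tD.r 10 = tC.m 4 (tC.r 3) % 2 ^ w := by rw [htD]; rfl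
    rw [e1, hcr, a3, cm4 a (by omega), hw]
    exact pow2_mod a (lt_wordLen (le8 (by omega)))
  have d11 : tD.r 11 = 2 ^ b := by
    have e1 : tD.r 11 = tC.m 4 (tC.r 4) % 2 ^ w := by rw [htD]; rfl
    rw [e1, hcr, a4, cm4 b (by omega), hw]
    exact pow2_mod b (lt_wordLen (le8 (by omega)))
  have d7 : tD.r 7 = 1 := by
    have e1 : tD.r 7 = 1 % 2 ^ w := by rw [htD]; rfl
    rw [e1]
    exact Int.emod_eq_of_lt (by norm_num) (one_lt_pow₀ (by norm_num) (by omega))
  have dR : ∀ j, j ≠ 10 → j ≠ 11 → j ≠ 7 → tD.r j = tA.r j := fun j h1 h2 h3 => by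
    rw [← hcr, htD]
    exact Prog.run_r w _ j (by simp [seqs, Prog.wrR, h1, h2, h3]) tC
  have dM : tD.m = tC.m := by rw [htD]; rfl
  obtain ⟨e7, eR, eM⟩ := zloop hw tD (by rw [dR 8 (by norm_num) (by norm_num) (by norm_num)]; exact a8)
    d7 tE htE
  obtain ⟨fR, fM, f7⟩ := powprog w 7 14 ((b + 1) * (b + 1)) (.reg 7) (zval n) tE
    (by rw [eR 14 (by norm_num), dR 14 (by norm_num) (by norm_num) (by norm_num), a14]; push_cast; rfl)
    hwpos rfl rfl e7 (fun i hi => by rw [hw]; exact zval_pow_mod hbn i hi) tF htF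
  have gR : ∀ j, j ≠ 12 → tG.r j = tF.r j := fun j h1 => by
    rw [htG]; exact Prog.run_r w _ j (by simpa [Prog.wrR] using h1) tF
  have gM : tG.m = tF.m := by rw [htG]; rfl
  have hR : ∀ j, j ≠ 12 → j ≠ 7 → j ≠ 10 → j ≠ 11 → tG.r j = tA.r j := fun j h1 h2 h3 h4 => by
    rw [gR j h1, fR, eR j h2, dR j h3 h4 h2]
  have g12 : tG.r 12 = zval n ^ (b + 1) := by
    have e1 : tG.r 12 = tF.m 7 (tF.r 4 + 1) % 2 ^ w := by rw [htG]; rfl
    have e2 : tF.r 4 = b := by
      rw [fR, eR 4 (by norm_num), dR 4 (by norm_num) (by norm_num) (by norm_num)]; exact a4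
    have e3 : ((b : ℤ) + 1) = ((b + 1 : ℕ) : ℤ) := by push_cast; ring
    rw [e1, e2, e3, f7 (b + 1) (Nat.le_mul_self _), hw]
    exact zval_pow_mod hbn _ (Nat.le_mul_self _)
  have hG18 : tG.r 18 = n + 1 := by
    rw [hR 18 (by norm_num) (by norm_num) (by norm_num) (by norm_num)]; exact a18
  obtain ⟨iR, iM, i6⟩ := bintab hw tG hG18 (n + 1) le_rfl
  have hrun2 : s' = (iter ((Prog.loop 31 (.reg 18) binP).run w) 30 tG (n + 1)).setR 30 (tG.r 30) := by
    rw [hrun]
    have e1 : (Prog.loop 30 (.reg 18) (.loop 31 (.reg 18) binP)).run w tG =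
      (iter ((Prog.loop 31 (.reg 18) binP).run w) 30 tG (tG.r 18).toNat).setR 30 (tG.r 30) := rfl
    rw [e1, hG18]
    congr 2
  have sR : ∀ j, s'.r j = tG.r j := fun j => by
    rw [hrun2, St.setR_r]
    split_ifs with hj
    · rw [hj]
    · exact iR j hj
  have sM : ∀ j, j ≠ 6 → s'.m j = tG.m j := fun j hj => by
    rw [hrun2, St.setR_m]; exact iM j hj
  refine ⟨?_, ?_, ?_, ?_, ?_, ?_, ?_, ?_, ?_, ?_, ?_, ?_, ?_, ?_⟩
  · rw [sR, gR 7 (by norm_num), fR]; exact e7
  · rw [sR]; exact g12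
  · rw [sR, gR 10 (by norm_num), fR, eR 10 (by norm_num)]; exact d10
  · rw [sR, gR 11 (by norm_num), fR, eR 11 (by norm_num)]; exact d11
  · rw [sR, hR 13 (by norm_num) (by norm_num) (by norm_num) (by norm_num)]; exact a13
  · rw [sR, hR 14 (by norm_num) (by norm_num) (by norm_num) (by norm_num)]; exact a14
  · rw [sR, hR 15 (by norm_num) (by norm_num) (by norm_num) (by norm_num)]; exact a15
  · rw [sR, hR 17 (by norm_num) (by norm_num) (by norm_num) (by norm_num)]; exact a17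
  · rw [sR]; exact hG18
  · rw [sR, hR 6 (by norm_num) (by norm_num) (by norm_num) (by norm_num)]; exact a6
  · intro i hi
    rw [sM 4 (by norm_num), gM, fM 4 (by norm_num), eM, dM]
    exact cm4 i hi
  · intro i hi
    rw [sM 5 (by norm_num), gM, fM 5 (by norm_num), eM, dM]
    exact c5 i hi
  · intro i hi
    rw [sM 7 (by norm_num), gM]
    exact f7 i hi
  · intro i j hi hj
    rw [hrun2, St.setR_m]
    exact i6 i j (by omega) hj

end Pool.Agent.Lib.MP_b2ebfc_lc.H35
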