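import Pool.Agent.Lib.MP_b2ebfc_lc.Iface

/-!
# Module BIRDP: correctness of `birdP`
-/

set_option autoImplicit false

namespace Pool.Agent.Lib.MP_b2ebfc_lc.H35

open Finset Pool.Agent.Lib.MP_b2ebfc_lc

theorem cast_emod (w : ℕ) (x : ℤ) : (((x % 2 ^ w : ℤ)) : ZMod (2 ^ w)) = (x : ZMod (2 ^ w)) := by
  have h : ((2 ^ w : ℕ) : ℤ) = (2 : ℤ) ^ w := by push_cast; rfl
  rw [← h]
  exact (ZMod.intCast_eq_intCast_iff' _ _ _).mpr (Int.emod_emod_of_dvd _ dvd_rfl)

theorem idx_div (b : ℕ) (i j : Fin b) :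
    (((i : ℕ) : ℤ) * b + (j : ℕ)) / b = (i : ℕ) := by
  have hb : (0 : ℤ) < b := by exact_mod_cast (Fin.pos i)
  rw [add_comm, Int.add_mul_ediv_right _ _ (ne_of_gt hb),
    Int.ediv_eq_zero_of_lt (by positivity) (by exact_mod_cast j.2), zero_add]

theorem idx_mod (b : ℕ) (i j : Fin b) :
    (((i : ℕ) : ℤ) * b + (j : ℕ)) % b = (j : ℕ) := by
  rw [add_comm, Int.add_mul_emod_self_right]
  exact Int.emod_eq_of_lt (by positivity) (by exact_mod_cast j.2)

theorem idx_lt (b : ℕ) (i j : Fin b) :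
    0 ≤ (((i : ℕ) : ℤ) * b + (j : ℕ)) ∧ (((i : ℕ) : ℤ) * b + (j : ℕ)) < b * b := by
  refine ⟨by positivity, ?_⟩
  have h : (i : ℕ) * b + (j : ℕ) < b * b := by
    have hi := i.2
    have hj := j.2
    calc (i : ℕ) * b + (j : ℕ) < (i : ℕ) * b + b := by omega
      _ = ((i : ℕ) + 1) * b := by ring
      _ ≤ b * b := Nat.mul_le_mul_right _ hi
  exact_mod_cast h

/-- The array `a`, as a matrix over `ZMod (2^w)`. -/
def matOf (w b a : ℕ) (s : St) (i j : Fin b) : ZMod (2 ^ w) :=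
  ((s.m a (((i : ℕ) : ℤ) * b + (j : ℕ)) : ℤ) : ZMod (2 ^ w))

theorem eval_birdE (w b : ℕ) (t : St) (h4 : t.r 4 = b) (i j : Fin b) :
    ((birdE.eval (t.setR 30 (((i : ℕ) : ℤ) * b + (j : ℕ))) : ℤ) : ZMod (2 ^ w)) =
      birdStep (matOf w b 11 t) (matOf w b 12 t) i j := by
  have hd := idx_div b i j
  have hm := idx_mod b i j
  unfold birdStep
  simp only [birdE, muE, Expr.eval, St.setR_r, St.setR_m]
  norm_num only [if_true, if_false, h4, hd, hm]
  simp only [Int.toNat_natCast, Finset.sum_range]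
  push_cast
  refine Finset.sum_congr rfl fun l _ => ?_
  congr 1
  rcases lt_trichotomy i l with h | h | h
  · have h' : ((i : ℕ) : ℤ) < (l : ℕ) := by exact_mod_cast h
    rw [if_pos h', if_pos h]
    rfl
  · subst h
    have h' : ¬ (((i : ℕ) : ℤ) < (i : ℕ)) := lt_irrefl _
    rw [if_neg h', if_neg h', if_neg (lt_irrefl i), if_neg (lt_irrefl i), zero_sub]
    congr 1
    refine Finset.sum_congr rfl fun m _ => ?_
    by_cases hm' : i < m
    · have h'' : ((i : ℕ) : ℤ) < (m : ℕ) := by exact_mod_cast hm'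
      rw [if_pos h'', if_pos hm']
      rfl
    · have h'' : ¬ (((i : ℕ) : ℤ) < (m : ℕ)) := by
        intro h; exact hm' (by exact_mod_cast h)
      rw [if_neg h'', if_neg hm']
  · have h' : ((l : ℕ) : ℤ) < (i : ℕ) := by exact_mod_cast h
    rw [if_neg (not_lt_of_gt h'), if_pos h', if_neg (not_lt_of_gt h), if_pos h]

/-- The body of the loop of Bird's algorithm. -/
def bodyB : Prog := seqs [tab 30 15 13 birdE, tab 30 15 12 (.arr 13 (.reg 30))]

theorem run_bodyB (w : ℕ) (t : St) :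
    (bodyB.run w t).m 12 = (fun k => if 0 ≤ k ∧ k < t.r 15 then
      (birdE.eval (t.setR 30 k) % 2 ^ w) % 2 ^ w else t.m 12 k) ∧
    (bodyB.run w t).r = t.r ∧ (bodyB.run w t).m 11 = t.m 11 := by
  have h1 : (tab 30 15 13 birdE).run w t = ⟨t.r, Function.update t.m 13 (fun k =>
      if 0 ≤ k ∧ k < t.r 15 then birdE.eval (t.setR 30 k) % 2 ^ w else t.m 13 k)⟩ :=
    run_tab w 30 15 13 birdE t rfl
  have h2 : bodyB.run w t = (tab 30 15 12 (.arr 13 (.reg 30))).run w
      ((tab 30 15 13 birdE).run w t) := rfl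
  rw [h2, run_tab w 30 15 12 (.arr 13 (.reg 30)) _ rfl, h1]
  refine ⟨?_, rfl, ?_⟩
  · funext k
    simp only [Function.update_self, Expr.eval, St.setR_m, St.setR_r, if_true]
    by_cases hk : 0 ≤ k ∧ k < t.r 15
    · rw [if_pos hk, if_pos hk, if_pos hk]
    · rw [if_neg hk, if_neg hk]
      rw [Function.update_of_ne (by norm_num)]
  · simp only [ne_eq, Nat.reduceEqDiff, not_false_eq_true, Function.update_of_ne]

theorem bodyB_step (w b : ℕ) (t : St) (h4 : t.r 4 = b) (h15 : t.r 15 = b * b) :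
    matOf w b 12 (bodyB.run w t) = birdStep (matOf w b 11 t) (matOf w b 12 t) := by
  funext i j
  rw [← eval_birdE w b t h4 i j]
  unfold matOf
  rw [(run_bodyB w t).1]
  have hlt := idx_lt b i j
  simp only [h15, if_pos hlt, cast_emod]

theorem iter_bodyB (w b : ℕ) (t : St) (h4 : t.r 4 = b) (h15 : t.r 15 = b * b) (k : ℕ) :
    matOf w b 12 (iter (bodyB.run w) 31 t k) =
      (birdStep (matOf w b 11 t))^[k] (matOf w b 12 t) ∧
    (∀ j ≠ 31, (iter (bodyB.run w) 31 t k).r j = t.r j) ∧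
    (iter (bodyB.run w) 31 t k).m 11 = t.m 11 := by
  induction k with
  | zero => exact ⟨rfl, fun j _ => rfl, rfl⟩
  | succ k ih =>
    obtain ⟨ih1, ih2, ih3⟩ := ih
    simp only [iter]
    obtain ⟨u, hu⟩ : ∃ u, u = (iter (bodyB.run w) 31 t k).setR 31 (k : ℤ) := ⟨_, rfl⟩
    rw [← hu]
    have hur : ∀ j ≠ 31, u.r j = t.r j := by
      intro j hj
      rw [hu, St.setR_r, if_neg hj]
      exact ih2 j hj
    have hum : u.m = (iter (bodyB.run w) 31 t k).m := by rw [hu]; rfl
    have hm11 : matOf w b 11 u = matOf w b 11 t := by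
      unfold matOf
      rw [hum, ih3]
    have hm12 : matOf w b 12 u = matOf w b 12 (iter (bodyB.run w) 31 t k) := by
      unfold matOf
      rw [hum]
    refine ⟨?_, ?_, ?_⟩
    · rw [bodyB_step w b u (by rw [hur 4 (by norm_num)]; exact h4)
        (by rw [hur 15 (by norm_num)]; exact h15), Function.iterate_succ_apply', hm11, hm12, ih1]
    · intro j hj
      rw [(run_bodyB w u).2.1]
      exact hur j hj
    · rw [(run_bodyB w u).2.2, hum]
      exact ih3

/-- BIRDP. -/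
theorem birdp (hBird : BirdStatement) : BirdPStatement := by
  intro w b s hb h4 h13 h15
  obtain ⟨c, rfl⟩ : ∃ c, b = c + 1 := ⟨b - 1, by omega⟩
  obtain ⟨t, ht⟩ : ∃ t, t = (tab 30 15 12 (.arr 11 (.reg 30))).run w s := ⟨_, rfl⟩
  have ht' := ht
  rw [run_tab w 30 15 12 (.arr 11 (.reg 30)) s rfl] at ht'
  have htr : t.r = s.r := by rw [ht']
  have htm11 : t.m 11 = s.m 11 := by
    rw [ht']
    simp only [ne_eq, Nat.reduceEqDiff, not_false_eq_true, Function.update_of_ne]
  have ht12 : matOf w (c + 1) 12 t = matOf w (c + 1) 11 s := by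
    funext i j
    unfold matOf
    rw [ht']
    simp only [Function.update_self, Expr.eval, St.setR_m, St.setR_r, if_true]
    rw [h15, if_pos (idx_lt (c + 1) i j), cast_emod]
  have ht11 : matOf w (c + 1) 11 t = matOf w (c + 1) 11 s := by
    unfold matOf
    rw [htm11]
  obtain ⟨u, hu⟩ : ∃ u, u = (Prog.loop 31 (.reg 13) bodyB).run w t := ⟨_, rfl⟩
  have hu' : u = (iter (bodyB.run w) 31 t c).setR 31 (t.r 31) := by
    rw [hu]
    simp only [Prog.run, Expr.eval]
    rw [htr, h13]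
    push_cast
    rw [add_sub_cancel_right, Int.toNat_natCast]
  have hit := iter_bodyB w (c + 1) t (by rw [htr]; exact h4) (by rw [htr]; exact h15) c
  have hum12 : matOf w (c + 1) 12 u = (birdStep (matOf w (c + 1) 11 s))^[c]
      (matOf w (c + 1) 11 s) := by
    have : matOf w (c + 1) 12 u = matOf w (c + 1) 12 (iter (bodyB.run w) 31 t c) := by
      unfold matOf
      rw [hu']
      rfl
    rw [this, hit.1, ht11, ht12]
  have hur13 : u.r 13 = c := by
    rw [hu', St.setR_r, if_neg (by norm_num), hit.2.1 13 (by norm_num), htr, h13]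
    push_cast
    ring
  have hrun : birdP.run w s = (Prog.set 24 (.cond (.mod (.reg 13) (.const 2)) (.const 1)
      (.arr 12 (.const 0)) (.sub (.const 0) (.arr 12 (.const 0))))).run w u := by
    subst hu; subst ht; rfl
  have hev : ((Prog.set 24 (.cond (.mod (.reg 13) (.const 2)) (.const 1)
      (.arr 12 (.const 0)) (.sub (.const 0) (.arr 12 (.const 0))))).run w u).r 24 =
      (if (c : ℤ) % 2 < 1 then u.m 12 0 else 0 - u.m 12 0) % 2 ^ w := by
    rw [← hur13]; simp [Prog.run, Expr.eval]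
  rw [hrun, hev, cast_emod]
  have h0 : ((u.m 12 0 : ℤ) : ZMod (2 ^ w)) = matOf w (c + 1) 12 u 0 0 := by
    unfold matOf
    simp
  have hdet := hBird (ZMod (2 ^ w)) c (matOf w (c + 1) 11 s)
  rw [← hum12] at hdet
  have hgoal : (Matrix.of fun i j : Fin (c + 1) =>
      ((s.m 11 (((i : ℕ) : ℤ) * ((c + 1 : ℕ) : ℤ) + (j : ℕ)) : ℤ) : ZMod (2 ^ w))).det =
      (Matrix.of (matOf w (c + 1) 11 s)).det := rfl
  rw [hgoal]
  rcases Nat.even_or_odd c with he | ho
  · have hc : ((c : ℤ) % 2) < 1 := by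
      have : c % 2 = 0 := Nat.even_iff.mp he
      omega
    rw [if_pos hc, h0, hdet, he.neg_one_pow, one_mul]
  · have hc : ¬ ((c : ℤ) % 2) < 1 := by
      have : c % 2 = 1 := Nat.odd_iff.mp ho
      omega
    rw [if_neg hc, zero_sub]
    push_cast
    rw [h0, hdet, ho.neg_one_pow]
    ring

end Pool.Agent.Lib.MP_b2ebfc_lc.H35
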