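import Pool.Agent.Lib.MP_b2ebfc_lc.H35.BirdP

/-!
# Module DETP: correctness of `detP`
-/

set_option autoImplicit false

namespace Pool.Agent.Lib.MP_b2ebfc_lc.H35

open Finset Pool.Agent.Lib.MP_b2ebfc_lc

/-- The bits as integers. -/
theorem bit_int (Z i : ℕ) : ((Z : ℤ) / 2 ^ i) % 2 = (((Z / 2 ^ i) % 2 : ℕ) : ℤ) := by
  push_cast; rfl

theorem one_sub_bit {a : ℕ} (Z : ℕ) (h : Fin a) :
    1 - ((Z : ℤ) / 2 ^ (h : ℕ)) % 2 = if h ∈ maskSet a Z then 0 else 1 := by
  rw [bit_int]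
  simp only [maskSet, mem_filter, mem_univ, true_and]
  rcases Nat.mod_two_eq_zero_or_one (Z / 2 ^ (h : ℕ)) with h0 | h0
  · rw [h0, if_neg (by norm_num)]; norm_num
  · rw [h0, if_pos rfl]; norm_num

theorem gram_compl {a b : ℕ} (M : Fin a → Fin b → ℤ) (Z : ℕ) (x y : Fin b) :
    gram M (maskSet a Z)ᶜ x y =
      ∑ h : Fin a, (1 - ((Z : ℤ) / 2 ^ (h : ℕ)) % 2) * (M h x * M h y) := by
  unfold gram
  rw [← Finset.sum_filter_add_sum_filter_not univ (fun h => h ∈ maskSet a Z)]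
  have h1 : ∑ h ∈ univ.filter (fun h => h ∈ maskSet a Z),
      (1 - ((Z : ℤ) / 2 ^ (h : ℕ)) % 2) * (M h x * M h y) = 0 := by
    refine Finset.sum_eq_zero fun h hh => ?_
    rw [one_sub_bit, if_pos (Finset.mem_filter.mp hh).2, zero_mul]
  rw [h1, zero_add]
  have h2 : univ.filter (fun h => ¬ h ∈ maskSet a Z) = (maskSet a Z)ᶜ := by
    ext h; simp
  rw [h2]
  refine Finset.sum_congr rfl fun h hh => ?_
  rw [one_sub_bit, if_neg (Finset.mem_compl.mp hh), one_mul]

/-- DETP. -/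
theorem detp (hBP : BirdPStatement) : DetPStatement := by
  intro w n a b M s Z hctx hZ h20
  obtain ⟨t, ht⟩ : ∃ t, t = (tab 30 15 11 matXE).run w s := ⟨_, rfl⟩
  have ht' := ht
  rw [run_tab w 30 15 11 matXE s rfl] at ht'
  have htr : t.r = s.r := by rw [ht']
  have hrun : detP.run w s = birdP.run w t := by subst ht; rfl
  rw [hrun, hBP w b t hctx.hb1 (by rw [htr]; exact hctx.hb) (by rw [htr]; exact hctx.h13)
    (by rw [htr]; exact hctx.h15)]
  unfold detZ
  have hmap := (Int.castRingHom (ZMod (2 ^ w))).map_det (Matrix.of fun x y : Fin b =>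
    (if x = y then 1 + zval n * s.m 10 (x : ℕ) else 0) + zval n ^ (b + 1) *
      (s.m 19 (x : ℕ) * s.m 19 (y : ℕ) * gram M (maskSet a Z)ᶜ x y))
  refine Eq.trans ?_ hmap.symm
  congr 1
  ext i j
  simp only [Matrix.of_apply, RingHom.mapMatrix_apply, Matrix.map_apply]
  rw [ht']
  simp only [Function.update_self]
  rw [hctx.h15, if_pos (idx_lt b i j), cast_emod]
  congr 1
  have hd := idx_div b i j
  have hm := idx_mod b i j
  have hP2 : ∀ h : Fin a, s.m 4 ((h : ℕ) : ℤ) = 2 ^ (h : ℕ) := fun h =>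
    hctx.hP2 h (by have := h.2; have := hctx.hab; omega)
  simp only [matXE, Expr.eval, eval_eqE, bitE, St.setR_r, St.setR_m]
  norm_num only [if_true, if_false, hctx.hb, hctx.ha, hctx.hz, hctx.ht, h20, hd, hm]
  simp only [Int.toNat_natCast, Finset.sum_range, hctx.hM, hP2]
  rw [← gram_compl M Z i j]
  congr 1
  by_cases hij : i = j
  · subst hij; simp
  · rw [if_neg hij, if_neg]
    intro h
    exact hij (Fin.ext (by exact_mod_cast h))

end Pool.Agent.Lib.MP_b2ebfc_lc.H35
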