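import Pool.Agent.Lib.MP_b2ebfc_lc.H35.DetP

/-!
# Auxiliary lemmas for the program modules
-/

set_option autoImplicit false

namespace Pool.Agent.Lib.MP_b2ebfc_lc.H35

open Finset Pool.Agent.Lib.MP_b2ebfc_lc

theorem tab_r (w x N G : ℕ) (e : Expr) (s : St) (j : ℕ) : ((tab x N G e).run w s).r j = s.r j :=
  Prog.run_r w _ j (tab_wrR x N G e j) s

theorem tab_m (w x N G : ℕ) (e : Expr) (s : St) (j : ℕ) (hj : j ≠ G) :
    ((tab x N G e).run w s).m j = s.m j :=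
  Prog.run_m w _ j (by simp [hj]) s

theorem tab_val (w x N G : ℕ) (e : Expr) (s : St) (hG : e.rdA G = false) (k : ℤ)
    (h0 : 0 ≤ k) (h1 : k < s.r N) :
    ((tab x N G e).run w s).m G k = e.eval (s.setR x k) % 2 ^ w := by
  rw [run_tab w x N G e s hG]
  simp only [Function.update_self]
  rw [if_pos ⟨h0, h1⟩]

/-- A context survives every program that does not touch it. -/
theorem ctx_run {n a b : ℕ} {M : Fin a → Fin b → ℤ} {s t : St} (h : Ctx n a b M s)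
    (hr : ∀ j ∈ [3, 4, 7, 12, 10, 11, 13, 15], t.r j = s.r j)
    (hm : ∀ j ∈ [3, 4, 5], t.m j = s.m j) : Ctx n a b M t := by
  refine ⟨?_, ?_, h.hab, h.hb1, ?_, ?_, ?_, ?_, ?_, ?_, ?_, h.hM01, ?_, ?_⟩
  · rw [hr 3 (by decide)]; exact h.ha
  · rw [hr 4 (by decide)]; exact h.hb
  · rw [hr 7 (by decide)]; exact h.hz
  · rw [hr 12 (by decide)]; exact h.ht
  · rw [hr 10 (by decide)]; exact h.h10
  · rw [hr 11 (by decide)]; exact h.h11
  · rw [hr 13 (by decide)]; exact h.h13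
  · rw [hr 15 (by decide)]; exact h.h15
  · rw [hm 3 (by decide)]; exact h.hM
  · rw [hm 4 (by decide)]; exact h.hP2
  · rw [hm 5 (by decide)]; exact h.hP3

theorem word_mod {n : ℕ} (x : ℤ) (h0 : 0 ≤ x) (h1 : x ≤ n * n) :
    x % 2 ^ wordLen n = x := by
  refine Int.emod_eq_of_lt h0 (lt_of_le_of_lt h1 ?_)
  have h2 : n * n < 2 ^ wordLen n := by
    calc n * n ≤ 2 ^ n * 2 ^ n := Nat.mul_le_mul (Nat.lt_two_pow_self).le
          (Nat.lt_two_pow_self).le
      _ = 2 ^ (n + n) := by rw [← pow_add]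
      _ < 2 ^ wordLen n := by
        refine Nat.pow_lt_pow_right (by norm_num) ?_
        unfold wordLen
        have h7 : 1 ≤ (n + 2) ^ 3 := Nat.one_le_pow _ _ (by omega)
        calc n + n < 8 * ((n + 2) * 1) := by omega
          _ ≤ 8 * ((n + 2) * (n + 2) ^ 3) := by gcongr
          _ = 8 * (n + 2) ^ 4 := by ring
  exact_mod_cast h2

theorem mem_maskSet {a : ℕ} (Z : ℕ) (i : Fin a) :
    i ∈ maskSet a Z ↔ (Z / 2 ^ (i : ℕ)) % 2 = 1 := by
  simp [maskSet]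

theorem bit_eq {a : ℕ} (Z : ℕ) (i : Fin a) :
    ((Z : ℤ) / 2 ^ (i : ℕ)) % 2 = if i ∈ maskSet a Z then 1 else 0 := by
  have h := one_sub_bit Z i
  split_ifs at h ⊢ <;> omega

theorem card_maskSet {a : ℕ} (Z : ℕ) :
    ∑ i : Fin a, ((Z : ℤ) / 2 ^ (i : ℕ)) % 2 = (maskSet a Z).card := by
  simp only [bit_eq]
  rw [Finset.sum_ite_mem, Finset.univ_inter]
  simp

theorem tern_union (a Z c : ℕ) : ternFst a Z c ∪ ternSnd a Z c = maskSet a Z := by
  ext i
  simp only [ternFst, ternSnd, Finset.mem_union, Finset.mem_filter]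
  constructor
  · rintro (h | h) <;> exact h.1
  · intro h
    by_cases h1 : (c / 3 ^ ((maskSet a Z).filter (fun h => h < i)).card) % 3 = 1
    · right
      exact ⟨h, by omega⟩
    · left
      exact ⟨h, h1⟩

/-- Loop invariants. -/
theorem iter_inv (b : St → St) (i : ℕ) (P : ℕ → St → Prop) (s : St) (N : ℕ) (h0 : P 0 s)
    (hs : ∀ k < N, ∀ t, P k t → P (k + 1) (b (t.setR i k))) : P N (iter b i s N) := by
  induction N with
  | zero => exact h0
  | succ N ih =>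
    exact hs N (Nat.lt_succ_self N) _ (ih fun k hk => hs k (Nat.lt_succ_of_lt hk))

theorem cnt_lt {a : ℕ} (Z : ℕ) (i : Fin a) :
    ∑ k : Fin a, (if ((k : ℕ) : ℤ) < ((i : ℕ) : ℤ) then ((Z : ℤ) / 2 ^ (k : ℕ)) % 2 else 0) =
      (((maskSet a Z).filter (fun h => h < i)).card : ℤ) := by
  simp only [bit_eq]
  rw [Finset.card_filter, Nat.cast_sum]
  have h1 : ∀ k : Fin a, (if ((k : ℕ) : ℤ) < ((i : ℕ) : ℤ) then
      (if k ∈ maskSet a Z then (1 : ℤ) else 0) else 0) =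
      if k ∈ maskSet a Z then (if k < i then 1 else 0) else 0 := by
    intro k
    have h2 : ((k : ℕ) : ℤ) < ((i : ℕ) : ℤ) ↔ k < i := by
      rw [Nat.cast_lt]; exact Iff.rfl
    simp only [h2]
    split_ifs <;> rfl
  simp only [h1]
  rw [Finset.sum_ite_mem, Finset.univ_inter]
  refine Finset.sum_congr rfl fun k _ => ?_
  push_cast
  rfl

theorem pow3_mod {n : ℕ} (r : ℕ) (h1 : r ≤ n) : (3 : ℤ) ^ r % 2 ^ wordLen n = 3 ^ r := by
  refine Int.emod_eq_of_lt (by positivity) ?_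
  have h2 : (3 : ℤ) ^ r ≤ 4 ^ r := pow_le_pow_left₀ (by norm_num) (by norm_num) r
  have h3 : (4 : ℤ) ^ r = 2 ^ (2 * r) := by rw [pow_mul]; norm_num
  have h4 : 2 * r < wordLen n := by
    unfold wordLen
    have h7 : 1 ≤ (n + 2) ^ 3 := Nat.one_le_pow _ _ (by omega)
    calc 2 * r < 8 * ((n + 2) * 1) := by omega
      _ ≤ 8 * ((n + 2) * (n + 2) ^ 3) := by gcongr
      _ = 8 * (n + 2) ^ 4 := by ring
  calc (3 : ℤ) ^ r ≤ 2 ^ (2 * r) := by rw [← h3]; exact h2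
    _ < 2 ^ wordLen n := pow_lt_pow_right₀ (by norm_num) h4

end Pool.Agent.Lib.MP_b2ebfc_lc.H35
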